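import Mathlib

/-!
Integer power series evaluated at `1 / b`: values, tails and size estimates.
-/

set_option autoImplicit false

open Finset Filter Topology PowerSeries

namespace Pool.Agent.P.MP_c8ecb2_nt

/-- Real coefficient. -/
noncomputable def cf (u : ℤ⟦X⟧) (m : ℕ) : ℝ := ((coeff m u : ℤ) : ℝ)

/-- Value at `x`. -/
noncomputable def val (x : ℝ) (u : ℤ⟦X⟧) : ℝ := ∑' m, cf u m * x ^ m

/-- Normalised tail after position `m`. -/
noncomputable def tail (x : ℝ) (u : ℤ⟦X⟧) (m : ℕ) : ℝ := ∑' j, cf u (j + (m + 1)) * x ^ (j + 1)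

/-- Polynomial growth of the coefficients. -/
def Poly (u : ℤ⟦X⟧) : Prop := ∃ (E : ℝ) (k : ℕ), ∀ m, |cf u m| ≤ E * ((m : ℝ) + 1) ^ k

theorem cf_mul (u v : ℤ⟦X⟧) (m : ℕ) :
    cf (u * v) m = ∑ p ∈ antidiagonal m, cf u p.1 * cf v p.2 := by
  simp [cf, coeff_mul]

theorem cf_add (u v : ℤ⟦X⟧) (m : ℕ) : cf (u + v) m = cf u m + cf v m := by simp [cf]

theorem cf_smul (a : ℤ) (u : ℤ⟦X⟧) (m : ℕ) : cf (a • u) m = a * cf u m := by
  unfold cf
  rw [map_smul, smul_eq_mul, Int.cast_mul]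

theorem cf_one (m : ℕ) : cf 1 m = if m = 0 then 1 else 0 := by
  simp only [cf, coeff_one]; split_ifs <;> simp

variable {x : ℝ}

theorem summable_poly (hx0 : 0 ≤ x) (hx : x < 1) (k : ℕ) :
    Summable fun m : ℕ => ((m : ℝ) + 1) ^ k * x ^ m := by
  rcases hx0.eq_or_lt with rfl | hx0'
  · apply summable_of_ne_finset_zero (s := {0})
    intro m hm
    simp only [mem_singleton] at hm
    simp [hm]
  have h := summable_pow_mul_geometric_of_norm_lt_one k (r := x)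
    (by rwa [Real.norm_eq_abs, abs_of_nonneg hx0])
  have h2 := ((summable_nat_add_iff 1).mpr h).mul_left x⁻¹
  refine h2.congr fun m => ?_
  push_cast
  field_simp
  ring

theorem Poly.summable_norm {u : ℤ⟦X⟧} (hu : Poly u) (hx0 : 0 ≤ x) (hx : x < 1) :
    Summable fun m => ‖cf u m * x ^ m‖ := by
  obtain ⟨E, k, h⟩ := hu
  refine Summable.of_nonneg_of_le (fun _ => norm_nonneg _) (fun m => ?_)
    ((summable_poly hx0 hx k).mul_left E)
  rw [norm_mul, Real.norm_eq_abs, Real.norm_eq_abs, abs_of_nonneg (pow_nonneg hx0 m), ← mul_assoc]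
  exact mul_le_mul_of_nonneg_right (h m) (pow_nonneg hx0 m)

theorem Poly.summable {u : ℤ⟦X⟧} (hu : Poly u) (hx0 : 0 ≤ x) (hx : x < 1) :
    Summable fun m => cf u m * x ^ m := (hu.summable_norm hx0 hx).of_norm

theorem Poly.summable_tail {u : ℤ⟦X⟧} (hu : Poly u) (hx0 : 0 < x) (hx : x < 1) (m : ℕ) :
    Summable fun j => cf u (j + (m + 1)) * x ^ (j + 1) := by
  have h := ((summable_nat_add_iff (m + 1)).mpr (hu.summable hx0.le hx)).mul_left (x ^ m)⁻¹
  refine h.congr fun j => ?_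
  field_simp
  ring

theorem val_mul {u v : ℤ⟦X⟧} (hu : Poly u) (hv : Poly v) (hx0 : 0 ≤ x) (hx : x < 1) :
    val x (u * v) = val x u * val x v := by
  unfold val
  rw [tsum_mul_tsum_eq_tsum_sum_antidiagonal_of_summable_norm (hu.summable_norm hx0 hx)
    (hv.summable_norm hx0 hx)]
  refine tsum_congr fun m => ?_
  rw [cf_mul, sum_mul]
  refine sum_congr rfl fun p hp => ?_
  rw [← mem_antidiagonal.mp hp, pow_add]
  ring

theorem val_add {u v : ℤ⟦X⟧} (hu : Poly u) (hv : Poly v) (hx0 : 0 ≤ x) (hx : x < 1) :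
    val x (u + v) = val x u + val x v := by
  unfold val
  rw [← (hu.summable hx0 hx).tsum_add (hv.summable hx0 hx)]
  exact tsum_congr fun m => by rw [cf_add]; ring

theorem val_smul (a : ℤ) (u : ℤ⟦X⟧) : val x (a • u) = a * val x u := by
  unfold val
  rw [← tsum_mul_left]
  exact tsum_congr fun m => by rw [cf_smul]; ring

theorem val_one : val x 1 = 1 := by
  unfold val
  rw [tsum_eq_single 0]
  · simp [cf_one]
  · intro m hm
    simp [cf_one, hm]

theorem val_eq_sum_add_tail {u : ℤ⟦X⟧} (hu : Poly u) (hx0 : 0 ≤ x) (hx : x < 1) (m : ℕ) :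
    val x u = ∑ k ∈ range (m + 1), cf u k * x ^ k + x ^ m * tail x u m := by
  unfold val tail
  rw [← (hu.summable hx0 hx).sum_add_tsum_nat_add (m + 1), ← tsum_mul_left]
  congr 1
  exact tsum_congr fun j => by ring

theorem tail_split {u : ℤ⟦X⟧} (hu : Poly u) (hx0 : 0 < x) (hx : x < 1) (m J : ℕ) :
    tail x u m = ∑ j ∈ range J, cf u (j + (m + 1)) * x ^ (j + 1) + x ^ J * tail x u (m + J) := by
  unfold tail
  rw [← (hu.summable_tail hx0 hx m).sum_add_tsum_nat_add J, ← tsum_mul_left]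
  congr 1
  refine tsum_congr fun j => ?_
  rw [show j + J + (m + 1) = j + (m + J + 1) by ring]
  ring

theorem tail_nonneg {u : ℤ⟦X⟧} (hx0 : 0 ≤ x) (h : ∀ m, 0 ≤ cf u m) (m : ℕ) : 0 ≤ tail x u m :=
  tsum_nonneg fun _ => mul_nonneg (h _) (pow_nonneg hx0 _)

theorem le_tail {u : ℤ⟦X⟧} (hu : Poly u) (hx0 : 0 < x) (hx : x < 1) (h : ∀ m, 0 ≤ cf u m)
    (m j : ℕ) : cf u (j + (m + 1)) * x ^ (j + 1) ≤ tail x u m :=
  (hu.summable_tail hx0 hx m).le_tsum j fun _ _ => mul_nonneg (h _) (pow_nonneg hx0.le _)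

theorem abs_tail_le {u v : ℤ⟦X⟧} (hv : Poly v) (hx0 : 0 < x) (hx : x < 1) {C : ℝ}
    (h : ∀ m, |cf u m| ≤ C * cf v m) (m : ℕ) : |tail x u m| ≤ C * tail x v m := by
  unfold tail
  rw [← tsum_mul_left, ← Real.norm_eq_abs]
  refine tsum_of_norm_bounded ((hv.summable_tail hx0 hx m).mul_left C).hasSum fun j => ?_
  rw [norm_mul, Real.norm_eq_abs, Real.norm_eq_abs, abs_of_nonneg (pow_nonneg hx0.le _),
    ← mul_assoc]
  exact mul_le_mul_of_nonneg_right (h _) (pow_nonneg hx0.le _)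

theorem tail_le_poly {u : ℤ⟦X⟧} (hx0 : 0 < x) (hx : x < 1) {E : ℝ} {k : ℕ}
    (h : ∀ m, |cf u m| ≤ E * ((m : ℝ) + 1) ^ k) :
    ∃ K : ℝ, 0 ≤ K ∧ ∀ m : ℕ, tail x u m ≤ K * ((m : ℝ) + 2) ^ k := by
  have hE : 0 ≤ E := by
    have := (abs_nonneg _).trans (h 0)
    simpa using this
  have hs := summable_poly hx0.le hx k
  refine ⟨E * ∑' j : ℕ, ((j : ℝ) + 1) ^ k * x ^ j,
    mul_nonneg hE (tsum_nonneg fun j => by positivity), fun m => ?_⟩
  unfold tail
  rw [← tsum_mul_left, ← tsum_mul_right]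
  refine Summable.tsum_le_tsum (fun j => ?_) (Poly.summable_tail ⟨E, k, h⟩ hx0 hx m)
    ((hs.mul_left E).mul_right _)
  have h1 : cf u (j + (m + 1)) ≤ E * (((j : ℝ) + 1) ^ k * ((m : ℝ) + 2) ^ k) := by
    refine (le_abs_self _).trans ((h _).trans (mul_le_mul_of_nonneg_left ?_ hE))
    rw [← mul_pow]
    refine pow_le_pow_left₀ (by positivity) ?_ k
    push_cast
    have : (0 : ℝ) ≤ (j : ℝ) * m := by positivity
    have : (0 : ℝ) ≤ (j : ℝ) := by positivity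
    nlinarith
  have h2 : x ^ (j + 1) ≤ x ^ j := pow_le_pow_of_le_one hx0.le hx.le (Nat.le_succ j)
  calc cf u (j + (m + 1)) * x ^ (j + 1)
      ≤ (E * (((j : ℝ) + 1) ^ k * ((m : ℝ) + 2) ^ k)) * x ^ j :=
        mul_le_mul h1 h2 (by positivity) (by positivity)
    _ = _ := by ring

theorem tail_int {b : ℕ} (hb : 2 ≤ b) {u w : ℤ⟦X⟧} (hu : Poly u) (hw : Poly w) {A : ℕ}
    (h : A * val (b : ℝ)⁻¹ u = val (b : ℝ)⁻¹ w) (m : ℕ) :
    ∃ z : ℤ, A * tail (b : ℝ)⁻¹ u m - tail (b : ℝ)⁻¹ w m = z := by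
  have hb0 : (0 : ℝ) < b := by exact_mod_cast (by omega : 0 < b)
  have hx0 : (0 : ℝ) ≤ (b : ℝ)⁻¹ := by positivity
  have hx : (b : ℝ)⁻¹ < 1 := inv_lt_one_of_one_lt₀ (by exact_mod_cast (by omega : 1 < b))
  rw [val_eq_sum_add_tail hu hx0 hx m, val_eq_sum_add_tail hw hx0 hx m] at h
  refine ⟨∑ k ∈ range (m + 1), (coeff k w - A * coeff k u) * b ^ (m - k), ?_⟩
  have h2 : ((∑ k ∈ range (m + 1), (coeff k w - A * coeff k u) * (b : ℤ) ^ (m - k) : ℤ) : ℝ) =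
      (b : ℝ) ^ m * (∑ k ∈ range (m + 1), cf w k * (b : ℝ)⁻¹ ^ k -
        A * ∑ k ∈ range (m + 1), cf u k * (b : ℝ)⁻¹ ^ k) := by
    rw [mul_sum, ← sum_sub_distrib, mul_sum]
    push_cast
    refine sum_congr rfl fun k hk => ?_
    have hk' : k ≤ m := Nat.lt_succ_iff.mp (mem_range.mp hk)
    rw [pow_sub₀ _ hb0.ne' hk', inv_pow]
    simp only [cf]
    ring
  rw [h2]
  have h3 : (b : ℝ) ^ m * (b : ℝ)⁻¹ ^ m = 1 := by rw [← mul_pow, mul_inv_cancel₀ hb0.ne', one_pow]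
  linear_combination (b : ℝ) ^ m * h - (A * tail (b : ℝ)⁻¹ u m - tail (b : ℝ)⁻¹ w m) * h3

section Pow

variable {t : ℤ⟦X⟧} {B : ℝ}

theorem cf_pow_nonneg (h0 : ∀ m, 0 ≤ cf t m) (k m : ℕ) : 0 ≤ cf (t ^ k) m := by
  induction k generalizing m with
  | zero => rw [pow_zero, cf_one]; split_ifs <;> norm_num
  | succ k ih =>
    rw [pow_succ, cf_mul]
    exact sum_nonneg fun p _ => mul_nonneg (ih _) (h0 _)

theorem cf_pow_le (h0 : ∀ m, 0 ≤ cf t m) (hB : ∀ m, cf t m ≤ B) (k m : ℕ) :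
    |cf (t ^ k) m| ≤ B ^ k * ((m : ℝ) + 1) ^ k := by
  have hB0 : 0 ≤ B := (h0 0).trans (hB 0)
  rw [abs_of_nonneg (cf_pow_nonneg h0 k m)]
  induction k generalizing m with
  | zero => rw [pow_zero, cf_one]; split_ifs <;> norm_num
  | succ k ih =>
    rw [pow_succ, cf_mul]
    have : ∀ p ∈ antidiagonal m, cf (t ^ k) p.1 * cf t p.2 ≤ B ^ k * ((m : ℝ) + 1) ^ k * B := by
      intro p hp
      have h1 : (p.1 : ℝ) ≤ m := by
        have := mem_antidiagonal.mp hp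
        exact_mod_cast (by omega : p.1 ≤ m)
      refine mul_le_mul ((ih _).trans ?_) (hB _) (h0 _) (by positivity)
      gcongr
    refine (sum_le_card_nsmul _ _ _ this).trans_eq ?_
    rw [Nat.card_antidiagonal, nsmul_eq_mul]
    push_cast
    ring

theorem poly_pow (h0 : ∀ m, 0 ≤ cf t m) (hB : ∀ m, cf t m ≤ B) (k : ℕ) : Poly (t ^ k) :=
  ⟨_, _, cf_pow_le h0 hB k⟩

theorem poly_of_dom (h0 : ∀ m, 0 ≤ cf t m) (hB : ∀ m, cf t m ≤ B) {k : ℕ} {w : ℤ⟦X⟧} {C : ℝ}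
    (hC : 0 ≤ C) (h : ∀ m, |cf w m| ≤ C * cf (t ^ k) m) : Poly w := by
  refine ⟨C * B ^ k, k, fun m => (h m).trans ?_⟩
  rw [mul_assoc]
  exact mul_le_mul_of_nonneg_left ((le_abs_self _).trans (cf_pow_le h0 hB k m)) hC

theorem val_pow (h0 : ∀ m, 0 ≤ cf t m) (hB : ∀ m, cf t m ≤ B) (hx0 : 0 ≤ x) (hx : x < 1)
    (k : ℕ) : val x (t ^ k) = val x t ^ k := by
  induction k with
  | zero => simp [val_one]
  | succ k ih =>
    have := poly_pow h0 hB 1
    rw [pow_one] at this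
    rw [pow_succ, val_mul (poly_pow h0 hB k) this hx0 hx, ih, pow_succ]

theorem sum_cf_pow_le (h0 : ∀ m, 0 ≤ cf t m) (k n : ℕ) :
    ∑ m ∈ range (n + 1), cf (t ^ k) m ≤ (∑ m ∈ range (n + 1), cf t m) ^ k := by
  induction k with
  | zero => simp [cf_one]
  | succ k ih =>
    have h1 : ∑ m ∈ range (n + 1), cf (t ^ (k + 1)) m =
        ∑ m ∈ range (n + 1), ∑ j ∈ range (n + 1 - m), cf (t ^ k) m * cf t j := by
      rw [← sum_range_diag_flip]
      refine sum_congr rfl fun m _ => ?_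
      rw [pow_succ, cf_mul, Nat.sum_antidiagonal_eq_sum_range_succ
        (fun i j => cf (t ^ k) i * cf t j)]
    rw [h1, pow_succ]
    refine le_trans ?_ (mul_le_mul_of_nonneg_right ih (sum_nonneg fun m _ => h0 m))
    rw [sum_mul]
    refine sum_le_sum fun m _ => ?_
    rw [← mul_sum]
    refine mul_le_mul_of_nonneg_left ?_ (cf_pow_nonneg h0 k m)
    exact sum_le_sum_of_subset_of_nonneg (range_subset_range.mpr (Nat.sub_le _ _))
      fun j _ _ => h0 j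

theorem one_le_cf {u : ℤ⟦X⟧} {m : ℕ} (h0 : 0 ≤ cf u m) (h : cf u m ≠ 0) : 1 ≤ cf u m := by
  unfold cf at *
  have h1 : (0 : ℤ) ≤ coeff m u := by exact_mod_cast h0
  have h2 : coeff m u ≠ 0 := by exact_mod_cast h
  exact_mod_cast (by omega : (1 : ℤ) ≤ coeff m u)

theorem le_cf_pow_succ (h0 : ∀ m, 0 ≤ cf t m) (k s v : ℕ) :
    cf (t ^ k) s * cf t v ≤ cf (t ^ (k + 1)) (s + v) := by
  rw [pow_succ, cf_mul]
  exact single_le_sum (f := fun p : ℕ × ℕ => cf (t ^ k) p.1 * cf t p.2)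
    (fun p _ => mul_nonneg (cf_pow_nonneg h0 k _) (h0 _)) (a := (s, v)) (by simp)

theorem cf_pow_zero_pos (h0 : ∀ m, 0 ≤ cf t m) (h1 : 1 ≤ cf t 0) (k : ℕ) : 1 ≤ cf (t ^ k) 0 := by
  induction k with
  | zero => simp [cf_one]
  | succ k ih =>
    have := le_cf_pow_succ h0 k 0 0
    simp only [add_zero] at this
    nlinarith

theorem cf_pow_le_succ (h0 : ∀ m, 0 ≤ cf t m) (h1 : 1 ≤ cf t 0) (k m : ℕ) :
    cf (t ^ k) m ≤ cf (t ^ (k + 1)) m := by
  have := le_cf_pow_succ h0 k m 0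
  simp only [add_zero] at this
  nlinarith [cf_pow_nonneg h0 k m]

/-- Reals having a positive multiple that is the value of an integer series dominated by `t ^ k`. -/
def Cls (h0 : ∀ m, 0 ≤ cf t m) (hB : ∀ m, cf t m ≤ B) (hx0 : 0 ≤ x) (hx : x < 1) (k : ℕ) :
    Submodule ℚ ℝ where
  carrier := {y | ∃ (A : ℕ) (C : ℝ) (w : ℤ⟦X⟧), 0 < A ∧ 0 ≤ C ∧
    (∀ m, |cf w m| ≤ C * cf (t ^ k) m) ∧ A * y = val x w}
  zero_mem' := ⟨1, 0, 0, one_pos, le_rfl, fun m => by simp [cf], by simp [val, cf]⟩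
  add_mem' := by
    rintro y y' ⟨A, C, w, hA, hC, hw, h⟩ ⟨A', C', w', hA', hC', hw', h'⟩
    have b1 : ∀ m, |cf ((A' : ℤ) • w) m| ≤ (A' * C) * cf (t ^ k) m := by
      intro m
      rw [cf_smul, abs_mul, mul_assoc]
      push_cast
      rw [Nat.abs_cast]
      exact mul_le_mul_of_nonneg_left (hw m) (by positivity)
    have b2 : ∀ m, |cf ((A : ℤ) • w') m| ≤ (A * C') * cf (t ^ k) m := by
      intro m
      rw [cf_smul, abs_mul, mul_assoc]
      push_cast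
      rw [Nat.abs_cast]
      exact mul_le_mul_of_nonneg_left (hw' m) (by positivity)
    refine ⟨A * A', A' * C + A * C', (A' : ℤ) • w + (A : ℤ) • w', Nat.mul_pos hA hA',
      by positivity, fun m => ?_, ?_⟩
    · rw [cf_add, add_mul]
      exact (abs_add_le _ _).trans (add_le_add (b1 m) (b2 m))
    · rw [val_add (poly_of_dom h0 hB (by positivity) b1) (poly_of_dom h0 hB (by positivity) b2)
        hx0 hx, val_smul, val_smul, ← h, ← h']
      push_cast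
      ring
  smul_mem' := by
    rintro c y ⟨A, C, w, hA, hC, hw, h⟩
    refine ⟨A * c.den, |(c.num : ℝ)| * C, c.num • w, Nat.mul_pos hA c.den_pos, by positivity,
      fun m => ?_, ?_⟩
    · rw [cf_smul, abs_mul, mul_assoc]
      exact mul_le_mul_of_nonneg_left (hw m) (abs_nonneg _)
    · rw [val_smul, ← h, Rat.smul_def]
      have : ((c.den : ℕ) : ℝ) * (c : ℝ) = (c.num : ℝ) := by exact_mod_cast Rat.den_mul_eq_num c
      push_cast
      linear_combination (A * y) * this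

theorem Cls_mul (h0 : ∀ m, 0 ≤ cf t m) (hB : ∀ m, cf t m ≤ B) (hx0 : 0 ≤ x) (hx : x < 1)
    (k l : ℕ) : Cls h0 hB hx0 hx k * Cls h0 hB hx0 hx l ≤ Cls h0 hB hx0 hx (k + l) := by
  rw [Submodule.mul_le]
  rintro y ⟨A, C, w, hA, hC, hw, h⟩ y' ⟨A', C', w', hA', hC', hw', h'⟩
  refine ⟨A * A', C * C', w * w', Nat.mul_pos hA hA', by positivity, fun m => ?_, ?_⟩
  · rw [pow_add, cf_mul, cf_mul, mul_sum]
    refine (abs_sum_le_sum_abs _ _).trans (sum_le_sum fun p _ => ?_)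
    rw [abs_mul]
    calc |cf w p.1| * |cf w' p.2| ≤ (C * cf (t ^ k) p.1) * (C' * cf (t ^ l) p.2) :=
          mul_le_mul (hw _) (hw' _) (abs_nonneg _) (mul_nonneg hC (cf_pow_nonneg h0 _ _))
      _ = _ := by ring
  · rw [val_mul (poly_of_dom h0 hB hC hw) (poly_of_dom h0 hB hC' hw') hx0 hx, ← h, ← h']
    push_cast
    ring

theorem pow_le_Cls (h0 : ∀ m, 0 ≤ cf t m) (hB : ∀ m, cf t m ≤ B) (hx0 : 0 ≤ x) (hx : x < 1)
    {V : Submodule ℚ ℝ} (hV : V ≤ Cls h0 hB hx0 hx 1) (k : ℕ) : V ^ k ≤ Cls h0 hB hx0 hx k := by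
  induction k with
  | zero =>
    rw [pow_zero, Submodule.one_eq_span, Submodule.span_le, Set.singleton_subset_iff]
    refine ⟨1, 1, 1, one_pos, zero_le_one, fun m => ?_, by simp [val_one]⟩
    rw [pow_zero, one_mul, cf_one]
    split_ifs <;> simp
  | succ k ih =>
    rw [pow_succ]
    exact (mul_le_mul' ih hV).trans (Cls_mul h0 hB hx0 hx k 1)

end Pow

end Pool.Agent.P.MP_c8ecb2_nt
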