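import Mathlib
import Pool.Agent.P.MP_c8ecb2_nt.Series

/-!
The counting argument: a series with bounded nonnegative integer coefficients whose value `θ` is
an irrational algebraic number with `θ ^ (r + 1)` dominated at level `r` has at least
`c N ^ (1 / (r + 1))` nonzero coefficients up to `N`.
-/

set_option autoImplicit false

open Finset Filter Topology PowerSeries

namespace Pool.Agent.P.MP_c8ecb2_nt

variable {t : ℤ⟦X⟧} {B : ℝ} {b : ℕ}

theorem inv_base_pos (hb : 2 ≤ b) : (0 : ℝ) < (b : ℝ)⁻¹ := by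
  have hb0 : (0 : ℝ) < b := by exact_mod_cast (by omega : 0 < b)
  positivity

theorem inv_base_le (hb : 2 ≤ b) : (b : ℝ)⁻¹ ≤ 1 / 2 := by
  have hb0 : (2 : ℝ) ≤ b := by exact_mod_cast hb
  rw [one_div]
  exact inv_anti₀ (by norm_num) hb0

theorem inv_base_lt (hb : 2 ≤ b) : (b : ℝ)⁻¹ < 1 := by linarith [inv_base_le hb]

theorem liouville_gap (hb : 2 ≤ b) (h0 : ∀ m, 0 ≤ cf t m) (hB : ∀ m, cf t m ≤ B)
    (h1 : 1 ≤ cf t 0) (hirr : Irrational (val (b : ℝ)⁻¹ t))
    (halg : IsAlgebraic ℤ (val (b : ℝ)⁻¹ t)) :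
    ∃ d κ : ℕ, ∀ y : ℕ, ∃ v ≤ y, cf t v ≠ 0 ∧ y ≤ d * v + κ := by
  classical
  have hx0 := inv_base_pos hb
  have hx := inv_base_lt hb
  have hb1 : (1 : ℝ) < b := by exact_mod_cast (by omega : 1 < b)
  have hb0 : (0 : ℝ) < b := by linarith
  obtain ⟨f, f0, hf⟩ := halg
  obtain ⟨A, hA, hL⟩ := Liouville.exists_pos_real_of_irrational_root hirr f0
    (by rwa [Polynomial.eval_map_algebraMap])
  have hpoly : ∀ m, |cf t m| ≤ B * ((m : ℝ) + 1) ^ 0 := fun m => by
    rw [abs_of_nonneg (h0 m)]; simpa using hB m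
  obtain ⟨K, hK0, hK⟩ := tail_le_poly hx0 hx hpoly
  simp only [pow_zero, mul_one] at hK
  obtain ⟨κ, hκ⟩ := pow_unbounded_of_one_lt (K * A) hb1
  refine ⟨f.natDegree, κ, fun y => ?_⟩
  set v := Nat.findGreatest (fun i => cf t i ≠ 0) y with hv
  have hvy : v ≤ y := Nat.findGreatest_le y
  have hv0 : cf t v ≠ 0 := Nat.findGreatest_spec (P := fun i => cf t i ≠ 0) (Nat.zero_le y)
    (by linarith)
  refine ⟨v, hvy, hv0, ?_⟩
  have hz : ∀ i, v < i → i ≤ y → cf t i = 0 := fun i h1 h2 => by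
    by_contra h
    exact Nat.findGreatest_is_greatest h1 h2 h
  have hP : Poly t := ⟨B, 0, hpoly⟩
  -- the tail after `v`
  have htail : tail (b : ℝ)⁻¹ t v = (b : ℝ)⁻¹ ^ (y - v) * tail (b : ℝ)⁻¹ t y := by
    rw [tail_split hP hx0 hx v (y - v), show v + (y - v) = y by omega, sum_eq_zero, zero_add]
    intro j hj
    rw [hz _ (by omega) (by have := mem_range.mp hj; omega), zero_mul]
  set a : ℤ := ∑ k ∈ range (v + 1), coeff k t * (b : ℤ) ^ (v - k) with ha
  have ha' : (a : ℝ) / (b : ℝ) ^ v = ∑ k ∈ range (v + 1), cf t k * (b : ℝ)⁻¹ ^ k := by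
    rw [ha]
    push_cast
    rw [sum_div]
    refine sum_congr rfl fun k hk => ?_
    have hk' : k ≤ v := Nat.lt_succ_iff.mp (mem_range.mp hk)
    rw [pow_sub₀ _ hb0.ne' hk', inv_pow]
    simp only [cf]
    field_simp
  have hq : (((b ^ v - 1 : ℕ) : ℝ) + 1) = (b : ℝ) ^ v := by
    have : 1 ≤ b ^ v := Nat.one_le_pow _ _ (by omega)
    push_cast [this]
    ring
  have h2 := hL a (b ^ v - 1)
  rw [hq, ha', val_eq_sum_add_tail hP hx0.le hx v, add_sub_cancel_left, htail, ← mul_assoc ((b : ℝ)⁻¹ ^ v),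
    ← pow_add, show v + (y - v) = y by omega,
    abs_of_nonneg (mul_nonneg (pow_nonneg hx0.le _) (tail_nonneg hx0.le h0 y))] at h2
  have h3 : (b : ℝ) ^ y ≤ ((b : ℝ) ^ v) ^ f.natDegree * (K * A) := by
    have h4 : (b : ℝ)⁻¹ ^ y * tail (b : ℝ)⁻¹ t y * A ≤ (b : ℝ)⁻¹ ^ y * K * A := by
      gcongr
      exact hK y
    have h5 := h2.trans (mul_le_mul_of_nonneg_left h4 (by positivity))
    have h6 : (b : ℝ) ^ y * (b : ℝ)⁻¹ ^ y = 1 := by
      rw [← mul_pow, mul_inv_cancel₀ hb0.ne', one_pow]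
    have h7 := mul_le_mul_of_nonneg_left h5 (pow_nonneg hb0.le y)
    calc (b : ℝ) ^ y = (b : ℝ) ^ y * 1 := (mul_one _).symm
      _ ≤ _ := h7
      _ = ((b : ℝ) ^ y * (b : ℝ)⁻¹ ^ y) * (((b : ℝ) ^ v) ^ f.natDegree * (K * A)) := by ring
      _ = _ := by rw [h6, one_mul]
  have h8 : (b : ℝ) ^ y ≤ (b : ℝ) ^ (f.natDegree * v + κ) := by
    refine h3.trans ?_
    rw [pow_add, mul_comm f.natDegree, pow_mul]
    exact mul_le_mul_of_nonneg_left hκ.le (by positivity)
  exact (pow_le_pow_iff_right₀ hb1).mp h8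

/-- Counting by gaps of a set containing `0`. -/
theorem gap_count (R G : ℕ → Prop) [DecidablePred R] [DecidablePred G] (hR : R 0) (N d Z : ℕ)
    (h : ∀ s e, s ≤ e → e ≤ N → R s → (∀ k, s < k → k ≤ e → ¬ R k) →
      ∃ v, s + v ≤ e + 1 ∧ e + 1 - s ≤ d * v + Z ∧ ∀ m, s ≤ m → m < s + v → G m) :
    N + 1 ≤ d * ((range (N + 1)).filter G).card + ((range (N + 1)).filter R).card * Z := by
  classical
  let φ : ℕ → ℕ := fun m => Nat.findGreatest R m
  have hφ : ∀ m ∈ range (N + 1), φ m ∈ (range (N + 1)).filter R := by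
    intro m hm
    rw [mem_filter, mem_range]
    refine ⟨lt_of_le_of_lt (Nat.findGreatest_le m) (mem_range.mp hm), ?_⟩
    exact Nat.findGreatest_spec (Nat.zero_le m) hR
  have e1 := card_eq_sum_card_fiberwise (f := φ) (s := range (N + 1))
    (t := (range (N + 1)).filter R) hφ
  have e2 := card_eq_sum_card_fiberwise (f := φ) (s := (range (N + 1)).filter G)
    (t := (range (N + 1)).filter R) (fun m hm => hφ m (mem_filter.mp hm).1)
  rw [card_range] at e1
  rw [e2, mul_sum, ← smul_eq_mul _ Z, ← sum_const, ← sum_add_distrib]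
  refine e1.trans_le (sum_le_sum fun s hs => ?_)
  obtain ⟨hsN, hs⟩ := mem_filter.mp hs
  set F := (range (N + 1)).filter fun m => φ m = s with hF
  rcases F.eq_empty_or_nonempty with hE | hne
  · rw [hE]; simp
  set e := F.max' hne with he
  have heF : e ∈ F := F.max'_mem hne
  obtain ⟨heN, hφe⟩ := mem_filter.mp heF
  have heN' : e ≤ N := Nat.lt_succ_iff.mp (mem_range.mp heN)
  have hse : s ≤ e := hφe ▸ Nat.findGreatest_le e
  have hgap : ∀ k, s < k → k ≤ e → ¬ R k := fun k h1 h2 =>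
    Nat.findGreatest_is_greatest (hφe ▸ h1 :) h2
  obtain ⟨v, hv1, hv2, hv3⟩ := h s e hse heN' hs hgap
  have c1 : F.card ≤ e + 1 - s := by
    rw [← Nat.card_Icc]
    refine card_le_card fun m hm => ?_
    rw [mem_Icc]
    exact ⟨(mem_filter.mp hm).2 ▸ Nat.findGreatest_le m, F.le_max' m hm⟩
  have c2 : v ≤ (((range (N + 1)).filter G).filter fun m => φ m = s).card := by
    have : (Ico s (s + v)).card = v := by simp
    rw [← this]
    refine card_le_card fun m hm => ?_
    obtain ⟨hm1, hm2⟩ := mem_Ico.mp hm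
    refine mem_filter.mpr ⟨mem_filter.mpr ⟨mem_range.mpr (by omega), hv3 m hm1 hm2⟩, ?_⟩
    exact Nat.findGreatest_eq_iff.mpr ⟨hm1, fun _ => hs, fun k h1 h2 => hgap k h1 (by omega)⟩
  calc F.card ≤ d * v + Z := c1.trans hv2
    _ ≤ _ := by gcongr

theorem sum_window_le {x : ℝ} (hx0 : 0 ≤ x) (hx : x ≤ 1 / 2) (p : ℕ → ℝ) (hp : ∀ k, 0 ≤ p k)
    (N n : ℕ) :
    ∑ m ∈ range (N + 1), ∑ j ∈ range (n - m), p (j + (m + 1)) * x ^ (j + 1) ≤
      ∑ k ∈ range (n + 1), p k := by
  have h1 : ∑ m ∈ range (N + 1), ∑ j ∈ range (n - m), p (j + (m + 1)) * x ^ (j + 1) ≤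
      ∑ m ∈ range n, ∑ j ∈ range (n - m), p (j + (m + 1)) * x ^ (j + 1) := by
    rcases le_total (N + 1) n with h | h
    · exact sum_le_sum_of_subset_of_nonneg (range_subset_range.mpr h) fun m _ _ =>
        sum_nonneg fun j _ => mul_nonneg (hp _) (pow_nonneg hx0 _)
    · refine (sum_subset (range_subset_range.mpr h) fun m _ hm => ?_).ge
      rw [mem_range, not_lt] at hm
      rw [Nat.sub_eq_zero_of_le hm, range_zero, sum_empty]
  refine h1.trans ?_
  rw [← sum_range_diag_flip n (fun m j => p (j + (m + 1)) * x ^ (j + 1)), sum_range_succ']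
  refine le_trans (sum_le_sum fun k _ => ?_) (le_add_of_nonneg_right (hp 0))
  have h2 : ∑ m ∈ range (k + 1), p (k - m + (m + 1)) * x ^ (k - m + 1) =
      p (k + 1) * ∑ j ∈ range (k + 1), x ^ (j + 1) := by
    rw [← sum_range_reflect (fun j => x ^ (j + 1)) (k + 1), mul_sum]
    refine sum_congr rfl fun m hm => ?_
    have := mem_range.mp hm
    rw [show k - m + (m + 1) = k + 1 by omega, show k + 1 - 1 - m = k - m by omega]
  rw [h2]
  have h3 : ∀ n : ℕ, ∑ j ∈ range n, x ^ (j + 1) ≤ 1 - x ^ n := by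
    intro n
    induction n with
    | zero => simp
    | succ n ih =>
      rw [sum_range_succ]
      have := pow_nonneg hx0 n
      rw [pow_succ]
      nlinarith
  have h4 := h3 (k + 1)
  have h5 := pow_nonneg hx0 (k + 1)
  nlinarith [hp (k + 1)]

theorem eventually_log_small (c₁ c₂ H : ℝ) (k : ℕ) :
    ∀ᶠ N : ℕ in atTop, H * (c₁ + c₂ * Real.log N) ^ k ≤ N := by
  have h1 : (fun y : ℝ => c₁ + c₂ * Real.log y) =O[atTop] Real.log :=
    Real.isLittleO_const_log_atTop.isBigO.add ((Asymptotics.isBigO_refl _ _).const_mul_left c₂)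
  have h2 := (((h1.pow k).trans_isLittleO Real.isLittleO_pow_log_id_atTop).const_mul_left H).bound
    one_pos
  filter_upwards [tendsto_natCast_atTop_atTop.eventually h2] with N hN
  simp only [id, one_mul, Real.norm_eq_abs, Nat.abs_cast] at hN
  exact (le_abs_self _).trans hN

theorem core (hb : 2 ≤ b) (h0 : ∀ m, 0 ≤ cf t m) (hB : ∀ m, cf t m ≤ B)
    (h1 : 1 ≤ cf t 0) (hirr : Irrational (val (b : ℝ)⁻¹ t))
    (halg : IsAlgebraic ℤ (val (b : ℝ)⁻¹ t)) (r : ℕ)
    (hr : val (b : ℝ)⁻¹ t ^ (r + 1) ∈ Cls h0 hB (inv_base_pos hb).le (inv_base_lt hb) r) :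
    ∃ H : ℝ, 0 < H ∧ ∀ᶠ N : ℕ in atTop,
      (N : ℝ) ≤ H * (((range (2 * N + 1)).filter fun i => cf t i ≠ 0).card : ℝ) ^ (r + 1) := by
  classical
  have hx0 := inv_base_pos hb
  have hx := inv_base_lt hb
  have hx2 := inv_base_le hb
  have hB1 : 1 ≤ B := h1.trans (hB 0)
  obtain ⟨d, κ, hgap⟩ := liouville_gap hb h0 hB h1 hirr halg
  obtain ⟨A, C, w, hA, hC, hw, hval⟩ := hr
  rw [← val_pow h0 hB hx0.le hx] at hval
  set x : ℝ := (b : ℝ)⁻¹ with hxdef
  set P := t ^ (r + 1) with hPdef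
  set Q := t ^ r with hQdef
  have pP : Poly P := poly_pow h0 hB _
  have pQ : Poly Q := poly_pow h0 hB _
  have pw : Poly w := poly_of_dom h0 hB hC hw
  have P0 : ∀ m, 0 ≤ cf P m := cf_pow_nonneg h0 _
  have Q0 : ∀ m, 0 ≤ cf Q m := cf_pow_nonneg h0 _
  have hA1 : (1 : ℝ) ≤ A := by exact_mod_cast hA
  obtain ⟨KQ, hKQ0, hKQ⟩ := tail_le_poly hx0 hx (cf_pow_le h0 hB r)
  obtain ⟨KP, hKP0, hKP⟩ := tail_le_poly hx0 hx (cf_pow_le h0 hB (r + 1))
  set E : ℝ := C * KQ + 1 with hE
  have hE1 : 1 ≤ E := by have := mul_nonneg hC hKQ0; linarith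
  set H₀ : ℝ := d * (2 * (A + C)) + 1 with hH₀
  have hH₀pos : 0 < H₀ := by positivity
  refine ⟨H₀ * B ^ (r + 1), by positivity, ?_⟩
  have ev1 : ∀ᶠ N : ℕ in atTop, (A + C) * (KP * 4 ^ (r + 1)) * ((N : ℝ) ^ (r + 1) * x ^ N) ≤ 1 / 2 := by
    have := (tendsto_pow_const_mul_const_pow_of_abs_lt_one (r + 1) (r := x)
      (by rwa [abs_of_pos hx0])).const_mul ((A + C) * (KP * 4 ^ (r + 1)))
    rw [mul_zero] at this
    exact this.eventually (ge_mem_nhds (by norm_num))
  filter_upwards [ev1, eventually_log_small (2 * Real.log E + 3 + κ) (4 * r) H₀ (r + 1),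
    eventually_ge_atTop 2] with N hN1 hN2 hN3
  have hN3' : (2 : ℝ) ≤ N := by exact_mod_cast hN3
  set M : ℕ := ((range (2 * N + 1)).filter fun i => cf t i ≠ 0).card with hM
  set L : ℕ := ⌈2 * (Real.log E + r * Real.log (N + 2))⌉₊ + 1 with hL
  have hlogE : 0 ≤ Real.log E := Real.log_nonneg hE1
  have hlogN : 0 ≤ Real.log ((N : ℝ) + 2) := Real.log_nonneg (by linarith)
  have hL1 : E * ((N : ℝ) + 2) ^ r * x ^ L < 1 := by
    have h2 : x ^ L ≤ (1 / 2) ^ L := pow_le_pow_left₀ hx0.le hx2 L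
    have h3 : E * ((N : ℝ) + 2) ^ r < 2 ^ L := by
      rw [← Real.log_lt_log_iff (by positivity) (by positivity), Real.log_mul (by positivity)
        (by positivity), Real.log_pow, Real.log_pow]
      have h4 := Nat.le_ceil (2 * (Real.log E + r * Real.log (N + 2)))
      have h5 := Real.log_two_gt_d9
      have h6 : (L : ℝ) = (⌈2 * (Real.log E + r * Real.log (N + 2))⌉₊ : ℝ) + 1 := by
        rw [hL]; push_cast; ring
      have h7 : (0 : ℝ) ≤ L := by positivity
      nlinarith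
    calc E * ((N : ℝ) + 2) ^ r * x ^ L ≤ E * ((N : ℝ) + 2) ^ r * (1 / 2) ^ L := by gcongr
      _ < 2 ^ L * (1 / 2) ^ L := by gcongr
      _ = 1 := by rw [← mul_pow]; norm_num
  have hZ : ((L + 1 + κ : ℕ) : ℝ) ≤ 2 * Real.log E + 3 + κ + 4 * r * Real.log N := by
    have h4 := Nat.ceil_lt_add_one (a := 2 * (Real.log E + r * Real.log (N + 2))) (by positivity)
    have h5 : Real.log ((N : ℝ) + 2) ≤ 2 * Real.log N := by
      rw [← Real.log_rpow (by linarith), Real.rpow_two]
      exact Real.log_le_log (by linarith) (by nlinarith)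
    have h6 : (r : ℝ) * Real.log ((N : ℝ) + 2) ≤ r * (2 * Real.log N) := by gcongr
    rw [hL]
    push_cast
    linarith
  -- the sum of the coefficients of `t`
  have hS : ∑ m ∈ range (2 * N + 1), cf t m ≤ B * M := by
    rw [← sum_filter_ne_zero, mul_comm B, hM, ← nsmul_eq_mul]
    exact sum_le_card_nsmul _ _ _ fun m _ => hB m
  have hS0 : 0 ≤ ∑ m ∈ range (2 * N + 1), cf t m := sum_nonneg fun m _ => h0 m
  have hM1 : (1 : ℝ) ≤ M := by
    have : 0 < M := card_pos.mpr ⟨0, mem_filter.mpr ⟨by simp, by linarith⟩⟩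
    exact_mod_cast this
  set Y : ℝ := B * M with hY
  have hY1 : 1 ≤ Y := by nlinarith
  -- good positions
  let G : ℕ → Prop := fun m => 1 ≤ (A + C) * tail x P m
  have hcount := gap_count (fun k => cf Q k ≠ 0) G
    (by have := cf_pow_zero_pos h0 h1 r; show cf Q 0 ≠ 0; linarith) N d (L + 1 + κ) (by
      intro s e hse heN hs hg
      by_cases hsm : e + 1 - s ≤ L + 1
      · exact ⟨0, by omega, by omega, fun m h1 h2 => by omega⟩
      obtain ⟨v, hv1, hv2, hv3⟩ := hgap (e - s - L)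
      refine ⟨v, by omega, by omega, fun m hm1 hm2 => ?_⟩
      obtain ⟨z, hz⟩ := tail_int hb pP pw hval m
      have t1 : x ^ (s + v - m) ≤ tail x P m := by
        have h2 := le_tail pP hx0 hx P0 m (s + v - m - 1)
        rw [show s + v - m - 1 + (m + 1) = s + v by omega,
          show s + v - m - 1 + 1 = s + v - m by omega] at h2
        have h3 := le_cf_pow_succ h0 r s v
        have h4 := one_le_cf (Q0 s) hs
        have h5 := one_le_cf (h0 v) hv2
        have h6 : 1 ≤ cf P (s + v) := (one_le_mul_of_one_le_of_one_le h4 h5).trans h3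
        exact (le_mul_of_one_le_left (pow_pos hx0 (s + v - m)).le h6).trans h2
      have t2 : tail x Q m ≤ x ^ (s + v - m) * (x ^ L * (KQ * ((N : ℝ) + 2) ^ r)) := by
        rw [tail_split pQ hx0 hx m (e - m), show m + (e - m) = e by omega, sum_eq_zero, zero_add,
          ← mul_assoc, ← pow_add]
        · refine mul_le_mul (pow_le_pow_of_le_one hx0.le hx.le (by omega)) ((hKQ e).trans ?_)
            (tail_nonneg hx0.le Q0 e) (by positivity)
          have : (e : ℝ) ≤ N := by exact_mod_cast heN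
          gcongr
        · intro j hj
          have := hg (j + (m + 1)) (by omega) (by have := mem_range.mp hj; omega)
          rw [not_not.mp this, zero_mul]
      have t3 := abs_tail_le pQ hx0 hx hw m
      have t4 : C * (x ^ L * (KQ * ((N : ℝ) + 2) ^ r)) < 1 := by
        refine lt_of_le_of_lt ?_ hL1
        have : C * KQ ≤ E := by linarith
        calc C * (x ^ L * (KQ * ((N : ℝ) + 2) ^ r)) = C * KQ * ((N : ℝ) + 2) ^ r * x ^ L := by ring
          _ ≤ _ := by gcongr
      have t5 : |tail x w m| < x ^ (s + v - m) := by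
        have hp := pow_pos hx0 (s + v - m)
        calc |tail x w m| ≤ C * (x ^ (s + v - m) * (x ^ L * (KQ * ((N : ℝ) + 2) ^ r))) :=
              t3.trans (mul_le_mul_of_nonneg_left t2 hC)
          _ = x ^ (s + v - m) * (C * (x ^ L * (KQ * ((N : ℝ) + 2) ^ r))) := by ring
          _ < x ^ (s + v - m) * 1 := by gcongr
          _ = _ := mul_one _
      have t6 : (0 : ℝ) < z := by
        rw [← hz]
        have := le_abs_self (tail x w m)
        have := le_mul_of_one_le_left (tail_nonneg hx0.le P0 m) hA1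
        linarith
      have t7 : (1 : ℝ) ≤ z := by
        have : (0 : ℤ) < z := by exact_mod_cast t6
        exact_mod_cast this
      have t8 : |tail x w m| ≤ C * tail x P m :=
        abs_tail_le pP hx0 hx (fun k => (hw k).trans
          (mul_le_mul_of_nonneg_left (cf_pow_le_succ h0 h1 r k) hC)) m
      have t9 := neg_abs_le (tail x w m)
      show 1 ≤ (A + C) * tail x P m
      linarith)
  -- size of the support of `Q`
  have hR : ((((range (N + 1)).filter fun k => cf Q k ≠ 0).card : ℕ) : ℝ) ≤ Y ^ r := by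
    calc ((((range (N + 1)).filter fun k => cf Q k ≠ 0).card : ℕ) : ℝ)
        = ∑ _k ∈ (range (N + 1)).filter fun k => cf Q k ≠ 0, (1 : ℝ) := by simp
      _ ≤ ∑ k ∈ (range (N + 1)).filter fun k => cf Q k ≠ 0, cf Q k :=
          sum_le_sum fun k hk => one_le_cf (Q0 k) (mem_filter.mp hk).2
      _ ≤ ∑ k ∈ range (2 * N + 1), cf Q k :=
          sum_le_sum_of_subset_of_nonneg ((filter_subset _ _).trans
            (range_subset_range.mpr (by omega))) fun k _ _ => Q0 k
      _ ≤ _ := (sum_cf_pow_le h0 r (2 * N)).trans (pow_le_pow_left₀ hS0 hS r)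
  -- number of good positions
  have hG : ((((range (N + 1)).filter G).card : ℕ) : ℝ) ≤ 2 * (A + C) * Y ^ (r + 1) := by
    have hAC : (0 : ℝ) ≤ A + C := by positivity
    calc ((((range (N + 1)).filter G).card : ℕ) : ℝ)
        = ∑ _k ∈ (range (N + 1)).filter G, (1 : ℝ) := by simp
      _ ≤ ∑ m ∈ (range (N + 1)).filter G, 2 * (A + C) *
            ∑ j ∈ range (2 * N - m), cf P (j + (m + 1)) * x ^ (j + 1) := by
          refine sum_le_sum fun m hm => ?_
          obtain ⟨hm1, hm2⟩ := mem_filter.mp hm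
          have hm3 : m ≤ N := Nat.lt_succ_iff.mp (mem_range.mp hm1)
          have hm4 : 1 ≤ (A + C) * tail x P m := hm2
          rw [tail_split pP hx0 hx m (2 * N - m), show m + (2 * N - m) = 2 * N by omega] at hm4
          have u1 : x ^ (2 * N - m) * tail x P (2 * N) ≤
              x ^ N * (KP * (4 ^ (r + 1) * (N : ℝ) ^ (r + 1))) := by
            refine mul_le_mul (pow_le_pow_of_le_one hx0.le hx.le (by omega)) ((hKP _).trans ?_)
              (tail_nonneg hx0.le P0 _) (by positivity)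
            rw [← mul_pow]
            push_cast
            gcongr
            linarith
          have u2 := mul_le_mul_of_nonneg_left u1 hAC
          nlinarith
      _ ≤ ∑ m ∈ range (N + 1), 2 * (A + C) *
            ∑ j ∈ range (2 * N - m), cf P (j + (m + 1)) * x ^ (j + 1) :=
          sum_le_sum_of_subset_of_nonneg (filter_subset _ _) fun m _ _ =>
            mul_nonneg (by positivity)
              (sum_nonneg fun j _ => mul_nonneg (P0 _) (pow_nonneg hx0.le _))
      _ ≤ 2 * (A + C) * ∑ k ∈ range (2 * N + 1), cf P k := by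
          rw [← mul_sum]
          exact mul_le_mul_of_nonneg_left (sum_window_le hx0.le hx2 _ P0 N (2 * N))
            (by positivity)
      _ ≤ _ := mul_le_mul_of_nonneg_left
          ((sum_cf_pow_le h0 (r + 1) (2 * N)).trans (pow_le_pow_left₀ hS0 hS _)) (by positivity)
  set Z : ℝ := ((L + 1 + κ : ℕ) : ℝ) with hZdef
  have hZ0 : 0 ≤ Z := by positivity
  have hmain : (N : ℝ) + 1 ≤ d * (2 * (A + C) * Y ^ (r + 1)) + Y ^ r * Z := by
    have h2 : ((N + 1 : ℕ) : ℝ) ≤ ((d * ((range (N + 1)).filter G).card +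
        ((range (N + 1)).filter fun k => cf Q k ≠ 0).card * (L + 1 + κ) : ℕ) : ℝ) := by
      exact_mod_cast hcount
    rw [Nat.cast_add, Nat.cast_add, Nat.cast_mul, Nat.cast_mul, Nat.cast_one] at h2
    refine h2.trans (add_le_add ?_ ?_)
    · gcongr
    · gcongr
  have hgen : ∀ W : ℝ, Y ≤ W → Z ≤ W → (N : ℝ) + 1 ≤ H₀ * W ^ (r + 1) := by
    intro W h2 h3
    have hW : 0 ≤ W := hZ0.trans h3
    have hY0 : 0 ≤ Y := by linarith
    calc (N : ℝ) + 1 ≤ _ := hmain
      _ ≤ d * (2 * (A + C) * W ^ (r + 1)) + W ^ r * W := by gcongr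
      _ = _ := by rw [hH₀]; ring
  rcases le_total Z Y with h | h
  · have := hgen Y le_rfl h
    rw [hY, mul_pow, ← mul_assoc] at this
    linarith
  · exfalso
    have h2 := hgen Z h le_rfl
    have h3 : H₀ * Z ^ (r + 1) ≤ H₀ * (2 * Real.log E + 3 + κ + 4 * r * Real.log N) ^ (r + 1) := by
      gcongr
    linarith

end Pool.Agent.P.MP_c8ecb2_nt
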