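import Mathlib
import Pool.Agent.P.MP_c8ecb2_nt.Core

/-!
Digit series of real numbers, the dimension lemma, and the bound for digit columns.
-/

set_option autoImplicit false

open Finset Filter Topology PowerSeries

namespace Pool.Agent.P.MP_c8ecb2_nt

variable {b : ℕ}

/-- The `i`-th base `b` digit of `α`. -/
noncomputable def dg (b : ℕ) (α : ℝ) (i : ℕ) : ℤ := ⌊α * (b : ℝ) ^ i⌋ % (b : ℤ)

theorem dg_nonneg (hb : 2 ≤ b) (α : ℝ) (i : ℕ) : 0 ≤ dg b α i :=
  Int.emod_nonneg _ (by omega)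

theorem dg_lt (hb : 2 ≤ b) (α : ℝ) (i : ℕ) : dg b α i < b :=
  Int.emod_lt_of_pos _ (by omega)

theorem floor_succ (hb : 2 ≤ b) (α : ℝ) (i : ℕ) :
    ⌊α * (b : ℝ) ^ (i + 1)⌋ = b * ⌊α * (b : ℝ) ^ i⌋ + dg b α (i + 1) := by
  have hb0 : (b : ℝ) ≠ 0 := by exact_mod_cast (by omega : b ≠ 0)
  have h := Int.floor_div_natCast (α * (b : ℝ) ^ (i + 1)) b
  rw [show α * (b : ℝ) ^ (i + 1) / b = α * (b : ℝ) ^ i by rw [pow_succ]; field_simp] at h
  rw [h, dg, Int.mul_ediv_add_emod]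

/-- Digit series. -/
noncomputable def ser (b : ℕ) (α : ℝ) : ℤ⟦X⟧ := PowerSeries.mk fun i => if i = 0 then 0 else dg b α i

/-- Complemented digit series. -/
noncomputable def ser' (b : ℕ) (α : ℝ) : ℤ⟦X⟧ :=
  PowerSeries.mk fun i => if i = 0 then 0 else b - 1 - dg b α i

theorem val_eq_of_tendsto {x y : ℝ} {u : ℤ⟦X⟧} (hu : Poly u) (hx0 : 0 ≤ x) (hx : x < 1)
    (h : Tendsto (fun k => ∑ i ∈ range (k + 1), cf u i * x ^ i) atTop (𝓝 y)) : val x u = y :=
  tendsto_nhds_unique ((tendsto_add_atTop_iff_nat 1).mpr (hu.summable hx0 hx).hasSum.tendsto_sum_nat)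
    h

theorem cf_ser (α : ℝ) (i : ℕ) : cf (ser b α) i = if i = 0 then 0 else (dg b α i : ℝ) := by
  simp only [cf, ser, coeff_mk]; split_ifs <;> simp

theorem cf_ser' (α : ℝ) (i : ℕ) :
    cf (ser' b α) i = if i = 0 then 0 else (b : ℝ) - 1 - (dg b α i : ℝ) := by
  simp only [cf, ser', coeff_mk]; split_ifs <;> simp

theorem cf_ser_bound (hb : 2 ≤ b) (α : ℝ) (i : ℕ) :
    0 ≤ cf (ser b α) i ∧ cf (ser b α) i ≤ b := by
  rw [cf_ser]
  have h1 : (0 : ℝ) ≤ dg b α i := by exact_mod_cast dg_nonneg hb α i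
  have h2 : (dg b α i : ℝ) < b := by exact_mod_cast dg_lt hb α i
  split_ifs
  · simp
  · exact ⟨h1, h2.le⟩

theorem cf_ser'_bound (hb : 2 ≤ b) (α : ℝ) (i : ℕ) :
    0 ≤ cf (ser' b α) i ∧ cf (ser' b α) i ≤ b := by
  rw [cf_ser']
  have h1 : (0 : ℝ) ≤ dg b α i := by exact_mod_cast dg_nonneg hb α i
  have h2 : (dg b α i : ℝ) + 1 ≤ b := by exact_mod_cast dg_lt hb α i
  split_ifs
  · simp
  · constructor <;> linarith

theorem poly_of_bound {u : ℤ⟦X⟧} {B : ℝ} (h : ∀ i, 0 ≤ cf u i ∧ cf u i ≤ B) : Poly u :=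
  ⟨B, 0, fun m => by rw [abs_of_nonneg (h m).1]; simpa using (h m).2⟩

theorem tendsto_floor_div (hb : 2 ≤ b) (α : ℝ) :
    Tendsto (fun k : ℕ => (⌊α * (b : ℝ) ^ k⌋ : ℝ) * (b : ℝ)⁻¹ ^ k) atTop (𝓝 α) := by
  have hx0 := inv_base_pos hb
  have hx := inv_base_lt hb
  have hb0 : (b : ℝ) ≠ 0 := by exact_mod_cast (by omega : b ≠ 0)
  have h1 : ∀ k : ℕ, (b : ℝ) ^ k * (b : ℝ)⁻¹ ^ k = 1 := fun k => by
    rw [← mul_pow, mul_inv_cancel₀ hb0, one_pow]
  have h2 : Tendsto (fun k : ℕ => α - (b : ℝ)⁻¹ ^ k) atTop (𝓝 α) := by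
    simpa using (tendsto_pow_atTop_nhds_zero_of_lt_one hx0.le hx).const_sub α
  refine tendsto_of_tendsto_of_tendsto_of_le_of_le h2 tendsto_const_nhds (fun k => ?_) fun k => ?_
  · have h3 := mul_le_mul_of_nonneg_right (Int.sub_one_lt_floor (α * (b : ℝ) ^ k)).le
      (pow_pos hx0 k).le
    rw [sub_mul, mul_assoc, h1] at h3
    simpa using h3
  · have h3 := mul_le_mul_of_nonneg_right (Int.floor_le (α * (b : ℝ) ^ k)) (pow_pos hx0 k).le
    rw [mul_assoc, h1] at h3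
    simpa using h3

theorem sum_ser (hb : 2 ≤ b) (α : ℝ) (k : ℕ) :
    ∑ i ∈ range (k + 1), cf (ser b α) i * (b : ℝ)⁻¹ ^ i =
      (⌊α * (b : ℝ) ^ k⌋ : ℝ) * (b : ℝ)⁻¹ ^ k - ⌊α⌋ := by
  have hb0 : (b : ℝ) ≠ 0 := by exact_mod_cast (by omega : b ≠ 0)
  induction k with
  | zero => simp [cf_ser]
  | succ k ih =>
    rw [sum_range_succ, ih, cf_ser, if_neg (Nat.succ_ne_zero k), floor_succ hb]
    push_cast
    have h1 : (b : ℝ) * (b : ℝ)⁻¹ = 1 := mul_inv_cancel₀ hb0
    linear_combination (-(⌊α * (b : ℝ) ^ k⌋ : ℝ) * (b : ℝ)⁻¹ ^ k) * h1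

theorem val_ser (hb : 2 ≤ b) (α : ℝ) : val (b : ℝ)⁻¹ (ser b α) = α - ⌊α⌋ := by
  refine val_eq_of_tendsto (poly_of_bound (cf_ser_bound hb α)) (inv_base_pos hb).le
    (inv_base_lt hb) ?_
  simp only [sum_ser hb]
  exact (tendsto_floor_div hb α).sub_const _

theorem val_ser' (hb : 2 ≤ b) (α : ℝ) : val (b : ℝ)⁻¹ (ser' b α) = 1 - (α - ⌊α⌋) := by
  have hb0 : (b : ℝ) ≠ 0 := by exact_mod_cast (by omega : b ≠ 0)
  refine val_eq_of_tendsto (poly_of_bound (cf_ser'_bound hb α)) (inv_base_pos hb).le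
    (inv_base_lt hb) ?_
  have h : ∀ k : ℕ, ∑ i ∈ range (k + 1), cf (ser' b α) i * (b : ℝ)⁻¹ ^ i =
      1 - (b : ℝ)⁻¹ ^ k - ∑ i ∈ range (k + 1), cf (ser b α) i * (b : ℝ)⁻¹ ^ i := by
    intro k
    induction k with
    | zero => simp [cf_ser, cf_ser']
    | succ k ih =>
      rw [sum_range_succ, ih, sum_range_succ _ (k + 1), cf_ser, cf_ser',
        if_neg (Nat.succ_ne_zero k), if_neg (Nat.succ_ne_zero k)]
      have h1 : (b : ℝ) * (b : ℝ)⁻¹ = 1 := mul_inv_cancel₀ hb0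
      linear_combination ((b : ℝ)⁻¹ ^ k) * h1
  simp only [h, sum_ser hb]
  have h2 := ((tendsto_pow_atTop_nhds_zero_of_lt_one (inv_base_pos hb).le
    (inv_base_lt hb)).const_sub 1).sub ((tendsto_floor_div hb α).sub_const (⌊α⌋ : ℝ))
  simpa using h2

theorem cf_sum {ι : Type*} (s : Finset ι) (e : ι → ℤ⟦X⟧) (m : ℕ) :
    cf (∑ j ∈ s, e j) m = ∑ j ∈ s, cf (e j) m := by
  simp [cf]

theorem val_sum {ι : Type*} (s : Finset ι) (e : ι → ℤ⟦X⟧) (he : ∀ j, Poly (e j)) {x : ℝ}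
    (hx0 : 0 ≤ x) (hx : x < 1) : val x (∑ j ∈ s, e j) = ∑ j ∈ s, val x (e j) := by
  unfold val
  rw [← Summable.tsum_finsetSum fun j _ => (he j).summable hx0 hx]
  exact tsum_congr fun m => by rw [cf_sum, sum_mul]

/-- The dimension lemma. -/
theorem pow_stable {n : ℕ} (α : Fin n → ℝ) (halg : ∀ j, IsAlgebraic ℚ (α j))
    (hli : LinearIndependent ℚ (Matrix.vecCons (1 : ℝ) α)) (r : ℕ)
    (hr : Module.finrank ℚ (IntermediateField.adjoin ℚ (Set.range α)) ≤ n + r) :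
    Submodule.span ℚ (insert 1 (Set.range α)) ^ (r + 1) ≤
      Submodule.span ℚ (insert 1 (Set.range α)) ^ r := by
  set V := Submodule.span ℚ (insert (1 : ℝ) (Set.range α)) with hV
  set K := IntermediateField.adjoin ℚ (Set.range α) with hK
  have hfin : FiniteDimensional ℚ K := IntermediateField.finiteDimensional_adjoin (by
    rintro _ ⟨j, rfl⟩
    exact (halg j).isIntegral)
  let K' : Submodule ℚ ℝ := Subalgebra.toSubmodule K.toSubalgebra
  have hfin' : FiniteDimensional ℚ K' := hfin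
  have hKK : Module.finrank ℚ K' = Module.finrank ℚ K := rfl
  have hVK : V ≤ K' := by
    rw [hV, Submodule.span_le]
    rintro y (rfl | hy)
    · exact K.one_mem
    · exact IntermediateField.subset_adjoin ℚ _ hy
  have hpow : ∀ k, V ^ k ≤ K' := by
    intro k
    induction k with
    | zero =>
      rw [pow_zero, Submodule.one_eq_span, Submodule.span_le, Set.singleton_subset_iff]
      exact K.one_mem
    | succ k ih =>
      rw [pow_succ, Submodule.mul_le]
      intro y hy z hz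
      exact K.mul_mem (ih hy) (hVK hz)
  have h1V : (1 : ℝ) ∈ V := Submodule.subset_span (Set.mem_insert _ _)
  have hmono : ∀ k, V ^ k ≤ V ^ (k + 1) := by
    intro k y hy
    rw [pow_succ, ← mul_one y]
    exact Submodule.mul_mem_mul hy h1V
  have hdim : Module.finrank ℚ V = n + 1 := by
    have := finrank_span_eq_card hli
    rw [Matrix.range_cons, Set.singleton_union] at this
    simpa using this
  have key : ∀ k, V ^ (k + 1) ≤ V ^ k ∨ n + 1 + k ≤ Module.finrank ℚ (V ^ (k + 1) :) := by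
    intro k
    induction k with
    | zero => right; rw [zero_add, pow_one, hdim]
    | succ k ih =>
      rcases ih with h | h
      · left
        rw [pow_succ V (k + 1)]
        exact (mul_le_mul_left h V).trans_eq (pow_succ V k).symm
      · by_cases h2 : V ^ (k + 1 + 1) ≤ V ^ (k + 1)
        · exact Or.inl h2
        · right
          have : FiniteDimensional ℚ (V ^ (k + 1 + 1) :) :=
            Submodule.finiteDimensional_of_le (hpow _)
          have := Submodule.finrank_lt_finrank_of_lt (lt_of_le_not_ge (hmono (k + 1)) h2)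
          omega
  rcases key r with h | h
  · exact h
  · have := Submodule.finrank_mono (hpow (r + 1))
    omega

theorem columns (hb : 2 ≤ b) {n : ℕ} (α : Fin n → ℝ) (hn : 1 ≤ n)
    (halg : ∀ j, IsAlgebraic ℚ (α j)) (hli : LinearIndependent ℚ (Matrix.vecCons (1 : ℝ) α))
    (r : ℕ) (hr : Submodule.span ℚ (insert 1 (Set.range α)) ^ (r + 1) ≤
      Submodule.span ℚ (insert 1 (Set.range α)) ^ r)
    (D : Fin n → ℕ) (hD : ∀ j, D j = 0 ∨ D j = b - 1) :
    ∃ H : ℝ, 0 < H ∧ ∀ᶠ N : ℕ in atTop,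
      (N : ℝ) ≤ H * (1 + (((Icc 1 (2 * N)).filter
        fun i => ¬ ∀ j, dg b (α j) i = D j).card : ℝ)) ^ (r + 1) := by
  classical
  have hx0 := inv_base_pos hb
  have hx := inv_base_lt hb
  let e : Fin n → ℤ⟦X⟧ := fun j => if D j = 0 then ser b (α j) else ser' b (α j)
  let σ : Fin n → ℚ := fun j => if D j = 0 then 1 else -1
  let z : Fin n → ℚ := fun j => if D j = 0 then -(⌊α j⌋ : ℚ) else 1 + (⌊α j⌋ : ℚ)
  have he : ∀ j i, 0 ≤ cf (e j) i ∧ cf (e j) i ≤ b := by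
    intro j i
    simp only [e]
    split_ifs
    · exact cf_ser_bound hb _ _
    · exact cf_ser'_bound hb _ _
  have hval : ∀ j, val (b : ℝ)⁻¹ (e j) = (σ j : ℝ) * α j + z j := by
    intro j
    simp only [e, σ, z]
    split_ifs
    · rw [val_ser hb]; push_cast; ring
    · rw [val_ser' hb]; push_cast; ring
  have hσ : ∀ j, σ j * σ j = 1 := by
    intro j
    simp only [σ]
    split_ifs <;> norm_num
  have hzero : ∀ j i, i ≠ 0 → dg b (α j) i = D j → cf (e j) i = 0 := by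
    intro j i hi h
    simp only [e]
    split_ifs with hj
    · rw [cf_ser, if_neg hi, h, hj]; simp
    · rw [cf_ser', if_neg hi, h, (hD j).resolve_left hj]
      have : 1 ≤ b := by omega
      push_cast [this]
      ring
  let t : ℤ⟦X⟧ := 1 + ∑ j, e j
  have hcf : ∀ i, cf t i = cf 1 i + ∑ j, cf (e j) i := fun i => by rw [← cf_sum, ← cf_add]
  have hone : ∀ i, 0 ≤ cf 1 i ∧ cf 1 i ≤ 1 := fun i => by rw [cf_one]; split_ifs <;> norm_num
  have hs0 : ∀ i, 0 ≤ ∑ j, cf (e j) i := fun i => sum_nonneg fun j _ => (he j i).1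
  have hs1 : ∀ i, ∑ j, cf (e j) i ≤ n * b := fun i => by
    have := sum_le_card_nsmul univ (fun j => cf (e j) i) b fun j _ => (he j i).2
    simpa using this
  have h0 : ∀ i, 0 ≤ cf t i := fun i => by rw [hcf]; linarith [hone i, hs0 i]
  have hB : ∀ i, cf t i ≤ 1 + n * b := fun i => by rw [hcf]; linarith [hone i, hs1 i]
  have h1 : 1 ≤ cf t 0 := by rw [hcf, cf_one]; simpa using hs0 0
  have hθ : val (b : ℝ)⁻¹ t = ((1 + ∑ j, z j : ℚ) : ℝ) + ∑ j, (σ j : ℝ) * α j := by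
    have p2 : Poly (∑ j, e j) := poly_of_bound (B := n * b) fun i => by
      rw [cf_sum]; exact ⟨hs0 i, hs1 i⟩
    rw [val_add (poly_of_bound hone) p2 hx0.le hx, val_one,
      val_sum _ _ (fun j => poly_of_bound (he j)) hx0.le hx]
    simp only [hval, sum_add_distrib]
    push_cast
    ring
  set V := Submodule.span ℚ (insert (1 : ℝ) (Set.range α)) with hV
  have h1V : (1 : ℝ) ∈ V := Submodule.subset_span (Set.mem_insert _ _)
  have hθV : val (b : ℝ)⁻¹ t ∈ V := by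
    rw [hθ]
    refine V.add_mem ?_ (V.sum_mem fun j _ => ?_)
    · have := V.smul_mem (1 + ∑ j, z j : ℚ) h1V
      rwa [Rat.smul_one_eq_cast] at this
    · have := V.smul_mem (σ j) (Submodule.subset_span (Set.mem_insert_of_mem _ ⟨j, rfl⟩))
      rwa [Rat.smul_def] at this
  have hirr : Irrational (val (b : ℝ)⁻¹ t) := by
    rintro ⟨q, hq⟩
    rw [hθ] at hq
    have := Fintype.linearIndependent_iff.mp hli (Matrix.vecCons (1 + ∑ j, z j - q) σ) (by
      rw [Fin.sum_univ_succ]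
      simp only [Matrix.cons_val_zero, Matrix.cons_val_succ, Rat.smul_def, mul_one]
      rw [Rat.cast_sub, hq]
      ring) (Fin.succ ⟨0, hn⟩)
    rw [Matrix.cons_val_succ] at this
    have h2 := hσ ⟨0, hn⟩
    rw [this] at h2
    norm_num at h2
  have halg' : IsAlgebraic ℤ (val (b : ℝ)⁻¹ t) := by
    rw [IsFractionRing.isAlgebraic_iff ℤ ℚ ℝ, hθ]
    refine IsIntegral.isAlgebraic (IsIntegral.add ?_ (IsIntegral.sum _ fun j _ => ?_))
    · exact isIntegral_algebraMap (R := ℚ) (A := ℝ)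
    · exact (isIntegral_algebraMap (R := ℚ) (A := ℝ)).mul (halg j).isIntegral
  have hVC : V ≤ Cls h0 hB hx0.le hx 1 := by
    have c1 : (1 : ℝ) ∈ Cls h0 hB hx0.le hx 1 := by
      refine ⟨1, 1, 1, one_pos, zero_le_one, fun m => ?_, by simp [val_one]⟩
      rw [pow_one, one_mul, abs_of_nonneg (hone m).1, hcf]
      linarith [hs0 m]
    rw [hV, Submodule.span_le]
    rintro y (rfl | ⟨j, rfl⟩)
    · exact c1
    · have c2 : val (b : ℝ)⁻¹ (e j) ∈ Cls h0 hB hx0.le hx 1 := by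
        refine ⟨1, 1, e j, one_pos, zero_le_one, fun m => ?_, by simp⟩
        rw [pow_one, one_mul, abs_of_nonneg (he j m).1, hcf]
        have := single_le_sum (f := fun j => cf (e j) m) (fun j _ => (he j m).1) (mem_univ j)
        linarith [hone m]
      have c3 := Submodule.smul_mem _ (σ j) (Submodule.sub_mem _ c2 (Submodule.smul_mem _ (z j) c1))
      have c4 : σ j • (val (b : ℝ)⁻¹ (e j) - z j • (1 : ℝ)) = α j := by
        rw [hval, Rat.smul_one_eq_cast, Rat.smul_def, add_sub_cancel_right, ← mul_assoc,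
          ← Rat.cast_mul, hσ]
        simp
      rwa [c4] at c3
  obtain ⟨H, hH, hev⟩ := core hb h0 hB h1 hirr halg' r
    (pow_le_Cls h0 hB hx0.le hx hVC r (hr (Submodule.pow_mem_pow V hθV (r + 1))))
  refine ⟨H, hH, hev.mono fun N hN => hN.trans ?_⟩
  have hsub : ((range (2 * N + 1)).filter fun i => cf t i ≠ 0) ⊆
      insert 0 ((Icc 1 (2 * N)).filter fun i => ¬ ∀ j, dg b (α j) i = D j) := by
    intro i hi
    obtain ⟨hi1, hi2⟩ := mem_filter.mp hi
    rw [mem_insert]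
    by_cases hi0 : i = 0
    · exact Or.inl hi0
    · right
      refine mem_filter.mpr ⟨mem_Icc.mpr ⟨by omega, by have := mem_range.mp hi1; omega⟩, fun h => ?_⟩
      apply hi2
      rw [hcf, cf_one, if_neg hi0, zero_add]
      exact sum_eq_zero fun j _ => hzero j i hi0 (h j)
  have hc := (card_le_card hsub).trans (card_insert_le _ _)
  have hc' : ((((range (2 * N + 1)).filter fun i => cf t i ≠ 0).card : ℕ) : ℝ) ≤
      1 + (((Icc 1 (2 * N)).filter fun i => ¬ ∀ j, dg b (α j) i = D j).card : ℝ) := by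
    rw [add_comm (1 : ℝ)]
    exact_mod_cast hc
  gcongr

end Pool.Agent.P.MP_c8ecb2_nt
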