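import Mathlib
import Pool.Agent.P.MP_c8ecb2_nt.Digits

/-!
Digit columns containing a digit different from `0` and `b - 1`, for tuples that are integral at
the primes dividing `b - 1`.
-/

set_option autoImplicit false

open Finset Filter Topology PowerSeries

namespace Pool.Agent.P.MP_c8ecb2_nt

variable {t : ℤ⟦X⟧} {B : ℝ} {b : ℕ} {x : ℝ}

theorem all_good (hb : 2 ≤ b) (h0 : ∀ m, 0 ≤ cf t m) (hB : ∀ m, cf t m ≤ B) (h1 : 1 ≤ cf t 0)
    (k : ℕ) {E : ℝ}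
    (hE : 0 ≤ E) (hgood : ∀ m, 1 ≤ E * tail (b : ℝ)⁻¹ (t ^ k) m) :
    ∃ H : ℝ, 0 < H ∧ ∀ᶠ N : ℕ in atTop,
      (N : ℝ) ≤ H * (((range (2 * N + 1)).filter fun i => cf t i ≠ 0).card : ℝ) ^ k := by
  classical
  have hx0 := inv_base_pos hb
  have hx := inv_base_lt hb
  have hx2 := inv_base_le hb
  have hB1 : 1 ≤ B := h1.trans (hB 0)
  set x : ℝ := (b : ℝ)⁻¹ with hxdef
  have pP : Poly (t ^ k) := poly_pow h0 hB _
  have P0 : ∀ m, 0 ≤ cf (t ^ k) m := cf_pow_nonneg h0 _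
  obtain ⟨KP, hKP0, hKP⟩ := tail_le_poly hx0 hx (cf_pow_le h0 hB k)
  refine ⟨(2 * E + 1) * B ^ k, by positivity, ?_⟩
  have ev1 : ∀ᶠ N : ℕ in atTop, E * (KP * 4 ^ k) * ((N : ℝ) ^ k * x ^ N) ≤ 1 / 2 := by
    have := (tendsto_pow_const_mul_const_pow_of_abs_lt_one k (r := x)
      (by rwa [abs_of_pos hx0])).const_mul (E * (KP * 4 ^ k))
    rw [mul_zero] at this
    exact this.eventually (ge_mem_nhds (by norm_num))
  filter_upwards [ev1, eventually_ge_atTop 2] with N hN1 hN3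
  have hN3' : (2 : ℝ) ≤ N := by exact_mod_cast hN3
  set M : ℕ := ((range (2 * N + 1)).filter fun i => cf t i ≠ 0).card with hM
  have hS : ∑ m ∈ range (2 * N + 1), cf t m ≤ B * M := by
    rw [← sum_filter_ne_zero, mul_comm B, hM, ← nsmul_eq_mul]
    exact sum_le_card_nsmul _ _ _ fun m _ => hB m
  have hS0 : 0 ≤ ∑ m ∈ range (2 * N + 1), cf t m := sum_nonneg fun m _ => h0 m
  calc (N : ℝ) ≤ ∑ _m ∈ range (N + 1), (1 : ℝ) := by simp
    _ ≤ ∑ m ∈ range (N + 1), 2 * E *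
          ∑ j ∈ range (2 * N - m), cf (t ^ k) (j + (m + 1)) * x ^ (j + 1) := by
        refine sum_le_sum fun m hm => ?_
        have hm3 : m ≤ N := Nat.lt_succ_iff.mp (mem_range.mp hm)
        have hm4 := hgood m
        rw [tail_split pP hx0 hx m (2 * N - m), show m + (2 * N - m) = 2 * N by omega] at hm4
        have u1 : x ^ (2 * N - m) * tail x (t ^ k) (2 * N) ≤
            x ^ N * (KP * (4 ^ k * (N : ℝ) ^ k)) := by
          refine mul_le_mul (pow_le_pow_of_le_one hx0.le hx.le (by omega)) ((hKP _).trans ?_)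
            (tail_nonneg hx0.le P0 _) (by positivity)
          rw [← mul_pow]
          push_cast
          gcongr
          linarith
        have u2 := mul_le_mul_of_nonneg_left u1 hE
        nlinarith
    _ ≤ 2 * E * ∑ m ∈ range (2 * N + 1), cf (t ^ k) m := by
        rw [← mul_sum]
        exact mul_le_mul_of_nonneg_left (sum_window_le hx0.le hx2 _ P0 N (2 * N)) (by positivity)
    _ ≤ 2 * E * (B * M) ^ k := mul_le_mul_of_nonneg_left
        ((sum_cf_pow_le h0 k (2 * N)).trans (pow_le_pow_left₀ hS0 hS _)) (by positivity)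
    _ ≤ (2 * E + 1) * (B * M) ^ k := by gcongr; linarith
    _ = _ := by rw [mul_pow, mul_assoc]

/-- Values of integer series dominated by `t ^ k`. -/
def ClsZ (h0 : ∀ m, 0 ≤ cf t m) (hB : ∀ m, cf t m ≤ B) (hx0 : 0 ≤ x) (hx : x < 1) (k : ℕ) :
    Submodule ℤ ℝ where
  carrier := {y | ∃ (C : ℝ) (w : ℤ⟦X⟧), 0 ≤ C ∧ (∀ m, |cf w m| ≤ C * cf (t ^ k) m) ∧ y = val x w}
  zero_mem' := ⟨0, 0, le_rfl, fun m => by simp [cf], by simp [val, cf]⟩
  add_mem' := by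
    rintro y y' ⟨C, w, hC, hw, h⟩ ⟨C', w', hC', hw', h'⟩
    refine ⟨C + C', w + w', by positivity, fun m => ?_, ?_⟩
    · rw [cf_add, add_mul]
      exact (abs_add_le _ _).trans (add_le_add (hw m) (hw' m))
    · rw [val_add (poly_of_dom h0 hB hC hw) (poly_of_dom h0 hB hC' hw') hx0 hx, h, h']
  smul_mem' := by
    rintro c y ⟨C, w, hC, hw, h⟩
    refine ⟨|(c : ℝ)| * C, c • w, by positivity, fun m => ?_, ?_⟩
    · rw [cf_smul, abs_mul, mul_assoc]
      exact mul_le_mul_of_nonneg_left (hw m) (abs_nonneg _)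
    · rw [val_smul, ← h, zsmul_eq_mul]

theorem ClsZ_mul (h0 : ∀ m, 0 ≤ cf t m) (hB : ∀ m, cf t m ≤ B) (hx0 : 0 ≤ x) (hx : x < 1)
    (k l : ℕ) : ClsZ h0 hB hx0 hx k * ClsZ h0 hB hx0 hx l ≤ ClsZ h0 hB hx0 hx (k + l) := by
  rw [Submodule.mul_le]
  rintro y ⟨C, w, hC, hw, h⟩ y' ⟨C', w', hC', hw', h'⟩
  refine ⟨C * C', w * w', by positivity, fun m => ?_, ?_⟩
  · rw [pow_add, cf_mul, cf_mul, mul_sum]
    refine (abs_sum_le_sum_abs _ _).trans (sum_le_sum fun p _ => ?_)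
    rw [abs_mul]
    calc |cf w p.1| * |cf w' p.2| ≤ (C * cf (t ^ k) p.1) * (C' * cf (t ^ l) p.2) :=
          mul_le_mul (hw _) (hw' _) (abs_nonneg _) (mul_nonneg hC (cf_pow_nonneg h0 _ _))
      _ = _ := by ring
  · rw [val_mul (poly_of_dom h0 hB hC hw) (poly_of_dom h0 hB hC' hw') hx0 hx, h, h']

theorem ClsZ_mono (h0 : ∀ m, 0 ≤ cf t m) (hB : ∀ m, cf t m ≤ B) (hx0 : 0 ≤ x) (hx : x < 1)
    (h1 : 1 ≤ cf t 0) (k : ℕ) : ClsZ h0 hB hx0 hx k ≤ ClsZ h0 hB hx0 hx (k + 1) := by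
  rintro y ⟨C, w, hC, hw, h⟩
  exact ⟨C, w, hC, fun m => (hw m).trans
    (mul_le_mul_of_nonneg_left (cf_pow_le_succ h0 h1 k m) hC), h⟩

theorem one_mem_ClsZ (h0 : ∀ m, 0 ≤ cf t m) (hB : ∀ m, cf t m ≤ B) (hx0 : 0 ≤ x) (hx : x < 1)
    (h1 : 1 ≤ cf t 0) (k : ℕ) : (1 : ℝ) ∈ ClsZ h0 hB hx0 hx k := by
  induction k with
  | zero =>
    refine ⟨1, 1, zero_le_one, fun m => ?_, by simp [val_one]⟩
    rw [pow_zero, one_mul, cf_one]
    split_ifs <;> simp
  | succ k ih => exact ClsZ_mono h0 hB hx0 hx h1 k ih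

/-- A rational number with denominator prime to the base has large tails everywhere. -/
theorem tail_large (hb : 2 ≤ b) {w : ℤ⟦X⟧} (hw : Poly w) {s p : ℕ} {a : ℤ}
    (hp : p.Prime) (hps : p ∣ s) (hpa : ¬ (p : ℤ) ∣ a) (hpb : ¬ p ∣ b)
    (h : (s : ℝ) * val (b : ℝ)⁻¹ w = a) (m : ℕ) : 1 ≤ s * |tail (b : ℝ)⁻¹ w m| := by
  have hb0 : (0 : ℝ) < b := by exact_mod_cast (by omega : 0 < b)
  rw [val_eq_sum_add_tail hw (inv_base_pos hb).le (inv_base_lt hb) m] at h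
  set z : ℤ := ∑ k ∈ range (m + 1), coeff k w * (b : ℤ) ^ (m - k) with hz
  have h2 : (z : ℝ) = (b : ℝ) ^ m * ∑ k ∈ range (m + 1), cf w k * (b : ℝ)⁻¹ ^ k := by
    rw [hz, mul_sum]
    push_cast
    refine sum_congr rfl fun k hk => ?_
    have hk' : k ≤ m := Nat.lt_succ_iff.mp (mem_range.mp hk)
    rw [pow_sub₀ _ hb0.ne' hk', inv_pow]
    simp only [cf]
    ring
  have h3 : (b : ℝ) ^ m * (b : ℝ)⁻¹ ^ m = 1 := by rw [← mul_pow, mul_inv_cancel₀ hb0.ne', one_pow]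
  have h4 : (s : ℝ) * tail (b : ℝ)⁻¹ w m = ((a * (b : ℤ) ^ m - s * z : ℤ) : ℝ) := by
    push_cast
    rw [h2]
    linear_combination (b : ℝ) ^ m * h - (s * tail (b : ℝ)⁻¹ w m) * h3
  have h5 : a * (b : ℤ) ^ m - s * z ≠ 0 := by
    intro h6
    have h7 : (p : ℤ) ∣ a * (b : ℤ) ^ m := by
      rw [sub_eq_zero.mp h6]
      exact Dvd.dvd.mul_right (by exact_mod_cast hps) z
    have hp' : Prime (p : ℤ) := Nat.prime_iff_prime_int.mp hp
    rcases hp'.dvd_or_dvd h7 with h8 | h8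
    · exact hpa h8
    · exact hpb (by exact_mod_cast hp'.dvd_of_dvd_pow h8)
  rw [← Nat.abs_cast (R := ℝ) s, ← abs_mul, h4]
  exact_mod_cast Int.one_le_abs h5

theorem exists_denominator {n q : ℕ} (hq : 0 < q) (d : Fin n → ℕ) (hd : ∃ j, ¬ q ∣ d j) :
    ∃ (s p : ℕ) (a : Fin n → ℕ) (j₀ : Fin n), 0 < s ∧ p.Prime ∧ p ∣ s ∧ s ∣ q ∧
      (∀ j, s * d j = q * a j) ∧ ¬ p ∣ a j₀ := by
  classical
  have hex : ∃ s, 0 < s ∧ s ∣ q ∧ ∀ j, q ∣ s * d j :=
    ⟨q, hq, dvd_rfl, fun j => dvd_mul_right _ _⟩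
  obtain ⟨hs0, hsq, hs⟩ := Nat.find_spec hex
  set s := Nat.find hex with hsdef
  have hs1 : s ≠ 1 := by
    intro h
    obtain ⟨j, hj⟩ := hd
    exact hj (by simpa [h] using hs j)
  obtain ⟨p, hp, s', hs'⟩ := Nat.exists_prime_and_dvd hs1
  have hs'0 : 0 < s' := Nat.pos_of_ne_zero (by rintro rfl; omega)
  have hlt : s' < s := by rw [hs']; nlinarith [hp.two_le]
  have hmin := Nat.find_min hex hlt
  have : ∃ j, ¬ q ∣ s' * d j := by
    by_contra hcon
    push Not at hcon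
    exact hmin ⟨hs'0, (Dvd.intro_left p hs'.symm).trans hsq, hcon⟩
  obtain ⟨j₀, hj₀⟩ := this
  choose a ha using hs
  refine ⟨s, p, a, j₀, hs0, hp, ⟨s', hs'⟩, hsq, ha, ?_⟩
  rintro ⟨c, hc⟩
  apply hj₀
  refine ⟨c, Nat.eq_of_mul_eq_mul_left hp.pos ?_⟩
  have := ha j₀
  rw [hc, hs'] at this
  linarith

/-- Digit series with a constant digit subtracted. -/
noncomputable def serd (b : ℕ) (α : ℝ) (d : ℕ) : ℤ⟦X⟧ :=
  PowerSeries.mk fun i => if i = 0 then 0 else dg b α i - d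

theorem cf_serd (α : ℝ) (d i : ℕ) :
    cf (serd b α d) i = if i = 0 then 0 else (dg b α i : ℝ) - d := by
  simp only [cf, serd, coeff_mk]; split_ifs <;> simp

theorem abs_cf_serd (hb : 2 ≤ b) (α : ℝ) {d : ℕ} (hd : d < b) (i : ℕ) :
    |cf (serd b α d) i| ≤ b := by
  rw [cf_serd]
  have h1 : (0 : ℝ) ≤ dg b α i := by exact_mod_cast dg_nonneg hb α i
  have h2 : (dg b α i : ℝ) < b := by exact_mod_cast dg_lt hb α i
  have h3 : (d : ℝ) < b := by exact_mod_cast hd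
  have h4 : (0 : ℝ) ≤ d := by positivity
  split_ifs
  · simp
  · rw [abs_le]; constructor <;> linarith

theorem val_serd (hb : 2 ≤ b) (α : ℝ) {d : ℕ} (hd : d < b) :
    val (b : ℝ)⁻¹ (serd b α d) = α - ⌊α⌋ - d / ((b : ℝ) - 1) := by
  have hb0 : (b : ℝ) ≠ 0 := by exact_mod_cast (by omega : b ≠ 0)
  have hb1 : (b : ℝ) - 1 ≠ 0 := by
    have : (2 : ℝ) ≤ b := by exact_mod_cast hb
    linarith
  refine val_eq_of_tendsto ⟨b, 0, fun m => by simpa using abs_cf_serd hb α hd m⟩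
    (inv_base_pos hb).le (inv_base_lt hb) ?_
  have h : ∀ k : ℕ, ∑ i ∈ range (k + 1), cf (serd b α d) i * (b : ℝ)⁻¹ ^ i =
      ∑ i ∈ range (k + 1), cf (ser b α) i * (b : ℝ)⁻¹ ^ i -
        d / ((b : ℝ) - 1) * (1 - (b : ℝ)⁻¹ ^ k) := by
    intro k
    induction k with
    | zero => simp [cf_ser, cf_serd]
    | succ k ih =>
      rw [sum_range_succ, ih, sum_range_succ _ (k + 1), cf_ser, cf_serd,
        if_neg (Nat.succ_ne_zero k), if_neg (Nat.succ_ne_zero k)]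
      have h1 : (b : ℝ) * (b : ℝ)⁻¹ = 1 := mul_inv_cancel₀ hb0
      have h2 : (d : ℝ) / ((b : ℝ) - 1) * ((b : ℝ) - 1) = d := div_mul_cancel₀ _ hb1
      linear_combination (-(d / ((b : ℝ) - 1)) * (b : ℝ)⁻¹ ^ k) * h1 + (b : ℝ)⁻¹ ^ (k + 1) * h2
  simp only [h, sum_ser hb]
  have h2 := ((tendsto_floor_div hb α).sub_const (⌊α⌋ : ℝ)).sub
    (((tendsto_pow_atTop_nhds_zero_of_lt_one (inv_base_pos hb).le
    (inv_base_lt hb)).const_sub 1).const_mul (d / ((b : ℝ) - 1)))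
  simpa using h2

theorem columns_mid (hb : 2 ≤ b) {n : ℕ} (α : Fin n → ℝ) (r A : ℕ) (hA : Nat.Coprime A (b - 1))
    (hr : ∀ y ∈ Submodule.span ℤ (insert 1 (Set.range α)) ^ (r + 1),
      A • y ∈ Submodule.span ℤ (insert 1 (Set.range α)) ^ r)
    (D : Fin n → ℕ) (hD : ∀ j, D j < b) (hmid : ∃ j, ¬ (b - 1) ∣ D j) :
    ∃ H : ℝ, 0 < H ∧ ∀ᶠ N : ℕ in atTop,
      (N : ℝ) ≤ H * (1 + (((Icc 1 (2 * N)).filter
        fun i => ¬ ∀ j, dg b (α j) i = D j).card : ℝ)) ^ (r + 1) := by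
  classical
  have hx0 := inv_base_pos hb
  have hx := inv_base_lt hb
  obtain ⟨s, p, a, j₀, hs0, hp, hps, hsq, ha, hpa⟩ :=
    exists_denominator (by omega : 0 < b - 1) D hmid
  let e : Fin n → ℤ⟦X⟧ := fun j => serd b (α j) (D j)
  let t : ℤ⟦X⟧ := PowerSeries.mk fun i => if i = 0 ∨ ¬ ∀ j, dg b (α j) i = D j then 1 else 0
  have hcf : ∀ i, cf t i = if i = 0 ∨ ¬ ∀ j, dg b (α j) i = D j then 1 else 0 := by
    intro i
    simp only [cf, t, coeff_mk]
    split_ifs <;> simp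
  have h0 : ∀ i, 0 ≤ cf t i := fun i => by rw [hcf]; split_ifs <;> norm_num
  have hB : ∀ i, cf t i ≤ 1 := fun i => by rw [hcf]; split_ifs <;> norm_num
  have h1 : 1 ≤ cf t 0 := by rw [hcf]; simp
  set Z := ClsZ h0 hB hx0.le hx with hZ
  have c1 : ∀ k, (1 : ℝ) ∈ Z k := one_mem_ClsZ h0 hB hx0.le hx h1
  have c1' : ∀ k (z : ℤ), (z : ℝ) ∈ Z k := fun k z => by
    simpa using (Z k).smul_mem z (c1 k)
  have cmul : ∀ k y z, y ∈ Z k → z ∈ Z 1 → y * z ∈ Z (k + 1) := fun k y z hy hz =>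
    ClsZ_mul h0 hB hx0.le hx k 1 (Submodule.mul_mem_mul hy hz)
  -- `β j = α j - D j / (b - 1)` is in `Z 1`
  have hb1 : (b : ℝ) - 1 ≠ 0 := by
    have : (2 : ℝ) ≤ b := by exact_mod_cast hb
    linarith
  have cβ : ∀ j, α j - D j / ((b : ℝ) - 1) ∈ Z 1 := by
    intro j
    have c2 : val (b : ℝ)⁻¹ (e j) ∈ Z 1 := by
      refine ⟨b, e j, by positivity, fun m => ?_, rfl⟩
      rw [pow_one, hcf]
      split_ifs with h
      · simpa using abs_cf_serd hb (α j) (hD j) m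
      · push Not at h
        simp [e, cf_serd, h.1, h.2 j]
    have := (Z 1).add_mem c2 (c1' 1 ⌊α j⌋)
    rw [val_serd hb _ (hD j)] at this
    convert this using 1
    ring
  have hsa : ∀ j, (s : ℝ) * α j = s * (α j - D j / ((b : ℝ) - 1)) + a j := by
    intro j
    have h2 : (s : ℝ) * D j = ((b : ℝ) - 1) * a j := by
      have h3 : ((s * D j : ℕ) : ℝ) = (((b - 1) * a j : ℕ) : ℝ) := by rw [ha j]
      have : 1 ≤ b := by omega
      push_cast [this] at h3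
      exact h3
    field_simp
    linear_combination h2
  set M := Submodule.span ℤ (insert (1 : ℝ) (Set.range α)) with hM
  have hM1 : ∀ y ∈ M, (s : ℝ) * y ∈ Z 1 := by
    intro y hy
    induction hy using Submodule.span_induction with
    | mem y hy =>
      rcases hy with rfl | ⟨j, rfl⟩
      · simpa using c1' 1 s
      · rw [hsa]
        refine (Z 1).add_mem ?_ (by simpa using c1' 1 (a j))
        simpa using (Z 1).smul_mem (s : ℤ) (cβ j)
    | zero => simp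
    | add y z _ _ hy hz => rw [mul_add]; exact (Z 1).add_mem hy hz
    | smul c y _ hy => rw [mul_smul_comm]; exact (Z 1).smul_mem c hy
  have hMk : ∀ k, ∀ y ∈ M ^ k, (s : ℝ) ^ k * y ∈ Z k := by
    intro k
    induction k with
    | zero =>
      intro y hy
      rw [pow_zero, Submodule.one_eq_span, Submodule.mem_span_singleton] at hy
      obtain ⟨c, rfl⟩ := hy
      simpa using c1' 0 c
    | succ k ih =>
      intro y hy
      rw [pow_succ] at hy
      refine Submodule.mul_induction_on hy (fun u hu v hv => ?_) fun u v hu hv => ?_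
      · have := cmul k _ _ (ih u hu) (hM1 v hv)
        convert this using 1
        ring
      · rw [mul_add]; exact (Z _).add_mem hu hv
  have hexp : ∀ k, ∃ y ∈ Z k, ((s : ℝ) * α j₀) ^ k = (a j₀ : ℝ) ^ k + s * y := by
    intro k
    induction k with
    | zero => exact ⟨0, (Z 0).zero_mem, by simp⟩
    | succ k ih =>
      obtain ⟨y, hy, h⟩ := ih
      set β := α j₀ - D j₀ / ((b : ℝ) - 1) with hβ
      refine ⟨(a j₀ : ℝ) ^ k * β + y * (s * α j₀), (Z _).add_mem ?_ ?_, ?_⟩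
      · exact cmul k _ _ (by simpa using c1' k ((a j₀ : ℤ) ^ k)) (cβ j₀)
      · exact cmul k _ _ hy (hM1 _ (Submodule.subset_span (Set.mem_insert_of_mem _ ⟨j₀, rfl⟩)))
      · rw [pow_succ, h]
        linear_combination (a j₀ : ℝ) ^ k * hsa j₀
  obtain ⟨y, hy, hyeq⟩ := hexp (r + 1)
  have hαM : α j₀ ∈ M := Submodule.subset_span (Set.mem_insert_of_mem _ ⟨j₀, rfl⟩)
  have hz := ClsZ_mono h0 hB hx0.le hx h1 r
    (hMk r _ (hr _ (Submodule.pow_mem_pow M hαM (r + 1))))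
  obtain ⟨C, w, hC, hw, hwv⟩ := (Z (r + 1)).sub_mem hz ((Z (r + 1)).smul_mem (A : ℤ) hy)
  have hval : (s : ℝ) * val (b : ℝ)⁻¹ w = ((A * (a j₀ : ℤ) ^ (r + 1) : ℤ) : ℝ) := by
    rw [← hwv, nsmul_eq_mul, zsmul_eq_mul]
    push_cast
    linear_combination (A : ℝ) * hyeq
  have hpq : p ∣ b - 1 := hps.trans hsq
  have hgood := tail_large hb (poly_of_dom h0 hB hC hw) hp hps (by
      intro h
      have hp' : Prime (p : ℤ) := Nat.prime_iff_prime_int.mp hp
      rcases hp'.dvd_or_dvd h with h2 | h2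
      · have h3 : p ∣ A := by exact_mod_cast h2
        exact hp.one_lt.ne' (Nat.dvd_one.mp (hA.gcd_eq_one ▸ Nat.dvd_gcd h3 hpq))
      · exact hpa (by exact_mod_cast hp'.dvd_of_dvd_pow h2)) (by
      intro h
      have h2 : p ∣ b - (b - 1) := Nat.dvd_sub h hpq
      rw [show b - (b - 1) = 1 by omega] at h2
      exact hp.one_lt.ne' (Nat.dvd_one.mp h2)) hval
  obtain ⟨H, hH, hev⟩ := all_good hb h0 hB h1 (r + 1) (E := s * C) (by positivity) (fun m => by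
    refine (hgood m).trans ?_
    rw [mul_assoc]
    exact mul_le_mul_of_nonneg_left (abs_tail_le (poly_pow h0 hB _) hx0 hx hw m) (by positivity))
  refine ⟨H, hH, hev.mono fun N hN => hN.trans ?_⟩
  have hsub : ((range (2 * N + 1)).filter fun i => cf t i ≠ 0) ⊆
      insert 0 ((Icc 1 (2 * N)).filter fun i => ¬ ∀ j, dg b (α j) i = D j) := by
    intro i hi
    obtain ⟨hi1, hi2⟩ := mem_filter.mp hi
    rw [mem_insert]
    by_cases hi0 : i = 0
    · exact Or.inl hi0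
    · right
      refine mem_filter.mpr ⟨mem_Icc.mpr ⟨by omega, by have := mem_range.mp hi1; omega⟩, fun h => ?_⟩
      apply hi2
      rw [hcf, if_neg]
      push Not
      exact ⟨hi0, h⟩
  have hc := (card_le_card hsub).trans (card_insert_le _ _)
  have hc' : ((((range (2 * N + 1)).filter fun i => cf t i ≠ 0).card : ℕ) : ℝ) ≤
      1 + (((Icc 1 (2 * N)).filter fun i => ¬ ∀ j, dg b (α j) i = D j).card : ℝ) := by
    rw [add_comm (1 : ℝ)]
    exact_mod_cast hc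
  gcongr

theorem rat_pow_le_of_int {n : ℕ} (α : Fin n → ℝ) (r A : ℕ) (hA : 0 < A)
    (hr : ∀ y ∈ Submodule.span ℤ (insert 1 (Set.range α)) ^ (r + 1),
      A • y ∈ Submodule.span ℤ (insert 1 (Set.range α)) ^ r) :
    Submodule.span ℚ (insert 1 (Set.range α)) ^ (r + 1) ≤
      Submodule.span ℚ (insert 1 (Set.range α)) ^ r := by
  rw [Submodule.span_pow, Submodule.span_pow, Submodule.span_le]
  rw [Submodule.span_pow, Submodule.span_pow] at hr
  intro y hy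
  have h1 := Submodule.span_subset_span ℤ ℚ _ (hr y (Submodule.subset_span hy))
  have h2 := Submodule.smul_mem _ ((A : ℚ)⁻¹) h1
  have hA' : (A : ℝ) ≠ 0 := by exact_mod_cast hA.ne'
  have h3 : (A : ℚ)⁻¹ • A • y = y := by
    rw [nsmul_eq_mul, Rat.smul_def]
    push_cast
    field_simp
  rwa [h3] at h2

/-- From the bound at `2 N` to the final form. -/
theorem final_form {n m r : ℕ} (α : Fin n → ℝ) (D : Fin n → Fin (m + 1) → Fin b)
    (h : ∃ H : ℝ, 0 < H ∧ ∀ᶠ N : ℕ in atTop,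
      (N : ℝ) ≤ H * (1 + (((Icc 1 (2 * N)).filter
        fun i => ¬ ∀ j, dg b (α j) i = ((D j 0 : ℕ) : ℤ)).card : ℝ)) ^ (r + 1)) :
    ∃ c : ℝ, 0 < c ∧ ∀ᶠ N : ℕ in Filter.atTop,
      ((Finset.filter
          (fun i : ℕ => ∀ j : Fin n, ∀ t : Fin (m + 1),
            Int.floor (α j * (b : ℝ) ^ (i + (t : ℕ))) % (b : ℤ) = (((D j t : ℕ)) : ℤ))
          (Finset.Icc 1 N)).card : ℝ) ≤ (N : ℝ) - c * (N : ℝ) ^ (1 / ((r : ℝ) + 1)) := by
  classical
  obtain ⟨H, hH, hev⟩ := h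
  have hr0 : (0 : ℝ) < (r : ℝ) + 1 := by positivity
  have hW : (0 : ℝ) < 3 * H * 2 ^ (r + 1) := by positivity
  refine ⟨(3 * H * 2 ^ (r + 1))⁻¹ ^ (1 / ((r : ℝ) + 1)), by positivity, ?_⟩
  have hdiv : Tendsto (fun N : ℕ => N / 2) atTop atTop := Nat.tendsto_div_const_atTop two_ne_zero
  filter_upwards [hdiv.eventually hev, eventually_ge_atTop 3,
    tendsto_natCast_atTop_atTop.eventually (eventually_gt_atTop (3 * H))] with N h1 h2 h3
  set p : ℕ → Prop := fun i : ℕ => ∀ j : Fin n, ∀ t : Fin (m + 1),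
    Int.floor (α j * (b : ℝ) ^ (i + (t : ℕ))) % (b : ℤ) = (((D j t : ℕ)) : ℤ) with hp
  set Y : ℕ := ((Icc 1 N).filter fun i => ¬ p i).card with hY
  have hsum : ((Icc 1 N).filter p).card + Y = N := by
    rw [hY, card_filter_add_card_filter_not]; simp
  have hle : ((Icc 1 (2 * (N / 2))).filter
      fun i => ¬ ∀ j, dg b (α j) i = ((D j 0 : ℕ) : ℤ)).card ≤ Y := by
    refine card_le_card fun i hi => ?_
    obtain ⟨hi1, hi2⟩ := mem_filter.mp hi
    rw [mem_Icc] at hi1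
    refine mem_filter.mpr ⟨mem_Icc.mpr ⟨hi1.1, by omega⟩, fun h => hi2 fun j => ?_⟩
    simpa [dg] using h j 0
  have h4 : (N : ℝ) ≤ 3 * ((N / 2 : ℕ) : ℝ) := by exact_mod_cast (by omega : N ≤ 3 * (N / 2))
  have h5 : (N : ℝ) ≤ 3 * (H * (1 + (Y : ℝ)) ^ (r + 1)) := by
    refine h4.trans (mul_le_mul_of_nonneg_left (h1.trans ?_) (by norm_num))
    gcongr
  have hY1 : (1 : ℝ) ≤ Y := by
    have : Y ≠ 0 := by
      intro h
      rw [h] at h5
      simp only [Nat.cast_zero, add_zero, one_pow, mul_one] at h5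
      linarith
    exact_mod_cast Nat.one_le_iff_ne_zero.mpr this
  have h6 : (3 * H * 2 ^ (r + 1))⁻¹ * N ≤ (Y : ℝ) ^ (r + 1) := by
    rw [inv_mul_le_iff₀ hW]
    refine h5.trans ?_
    have : (1 + (Y : ℝ)) ^ (r + 1) ≤ (2 * Y) ^ (r + 1) :=
      pow_le_pow_left₀ (by positivity) (by linarith) _
    rw [mul_pow] at this
    nlinarith
  have h7 : (3 * H * 2 ^ (r + 1))⁻¹ ^ (1 / ((r : ℝ) + 1)) * (N : ℝ) ^ (1 / ((r : ℝ) + 1)) ≤ Y := by
    rw [← Real.mul_rpow (by positivity) (by positivity)]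
    refine (Real.rpow_le_rpow (by positivity) h6 (by positivity)).trans_eq ?_
    rw [one_div, ← Nat.cast_succ, Real.pow_rpow_inv_natCast (by positivity) (Nat.succ_ne_zero r)]
  have h8 : ((((Icc 1 N).filter p).card : ℕ) : ℝ) + Y = N := by exact_mod_cast hsum
  linarith

end Pool.Agent.P.MP_c8ecb2_nt
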